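import Mathlib

set_option autoImplicit false

namespace Pool.Agent.P.MP_3540e7_al

open Subgroup
open scoped commutatorElement

variable {G : Type*} [Group G] {Q : Type*} [Group Q]

/-- Ascending chain condition for the subgroups between `M` and `H`. -/
def RN (M H : Subgroup G) : Prop :=
  ∀ c : ℕ → Subgroup G, Monotone c → (∀ n, M ≤ c n) → (∀ n, c n ≤ H) →
    ∃ n, ∀ m, n ≤ m → c m = c n

/-- Ascending chain condition for the subgroups of `H`. -/
abbrev Noeth (H : Subgroup G) : Prop := RN ⊥ H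

theorem RN.mono {M M' H H' : Subgroup G} (h : RN M H) (hM : M ≤ M') (hH : H' ≤ H) : RN M' H' :=
  fun c hc h1 h2 => h c hc (fun n => hM.trans (h1 n)) (fun n => (h2 n).trans hH)

theorem RN.of_le {M H : Subgroup G} (h : H ≤ M) : RN M H :=
  fun _ _ h1 h2 => ⟨0, fun m _ => le_antisymm ((h2 m).trans (h.trans (h1 0)))
    ((h2 0).trans (h.trans (h1 m)))⟩

theorem mem_sup_norm {X M : Subgroup G} (h : X ≤ normalizer (M : Set G)) {g : G} :
    g ∈ X ⊔ M ↔ ∃ x ∈ X, ∃ m ∈ M, x * m = g := by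
  rw [← SetLike.mem_coe, coe_mul_of_left_le_normalizer_right X M h]
  exact Set.mem_mul

theorem modular_eq {X Y M : Subgroup G} (hXY : X ≤ Y) (hn : X ≤ normalizer (M : Set G))
    (h1 : Y ⊓ M ≤ X) (h2 : Y ≤ X ⊔ M) : Y = X := by
  refine le_antisymm (fun y hy => ?_) hXY
  obtain ⟨x, hx, m, hm, rfl⟩ := (mem_sup_norm hn).1 (h2 hy)
  have : m ∈ Y := by simpa using Y.mul_mem (Y.inv_mem (hXY hx)) hy
  exact X.mul_mem hx (h1 ⟨this, hm⟩)

theorem RN.trans {M H H' : Subgroup G} (h1 : RN M H) (h2 : RN H H') (hM : M ≤ H) (hH : H ≤ H')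
    (hn : H' ≤ normalizer (H : Set G)) : RN M H' := by
  intro c hc hc1 hc2
  obtain ⟨a, ha⟩ := h1 (fun n => c n ⊓ H) (fun i j hij => inf_le_inf_right _ (hc hij))
    (fun n => le_inf (hc1 n) hM) (fun n => inf_le_right)
  obtain ⟨b, hb⟩ := h2 (fun n => c n ⊔ H) (fun i j hij => sup_le_sup_right (hc hij) _)
    (fun n => le_sup_right) (fun n => sup_le (hc2 n) hH)
  refine ⟨max a b, fun m hm => modular_eq (hc hm) ((hc2 _).trans hn) ?_ ?_⟩
  · have e1 := ha m (le_trans (le_max_left _ _) hm)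
    have e2 := ha (max a b) (le_max_left _ _)
    rw [e1, ← e2]; exact inf_le_left
  · have e1 := hb m (le_trans (le_max_right _ _) hm)
    have e2 := hb (max a b) (le_max_right _ _)
    rw [e2, ← e1]; exact le_sup_left

theorem RN.trans' {M H H' : Subgroup G} [H.Normal] (h1 : RN M H) (h2 : RN H H') (hM : M ≤ H)
    (hH : H ≤ H') : RN M H' :=
  h1.trans h2 hM hH (by rw [normalizer_eq_top]; exact le_top)

theorem RN.comap (f : G →* Q) {M H : Subgroup Q} (hM : M ≤ f.range) (h : RN M H) :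
    RN (M.comap f) (H.comap f) := by
  intro c hc hc1 hc2
  have hk : ∀ n, f.ker ≤ c n := fun n => (f.ker_le_comap M).trans (hc1 n)
  obtain ⟨a, ha⟩ := h (fun n => (c n).map f) (fun i j hij => map_mono (hc hij))
    (fun n => by
      rw [← map_comap_eq_self hM]; exact map_mono (hc1 n))
    (fun n => map_le_iff_le_comap.2 (hc2 n))
  refine ⟨a, fun m hm => ?_⟩
  have := congrArg (Subgroup.comap f) (ha m hm)
  rwa [comap_map_eq_self (hk m), comap_map_eq_self (hk a)] at this

theorem map_comap_inf (f : G →* Q) (K : Subgroup Q) (H : Subgroup G) (h : K ≤ H.map f) :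
    (K.comap f ⊓ H).map f = K := by
  refine le_antisymm (map_le_iff_le_comap.2 inf_le_left) (fun k hk => ?_)
  obtain ⟨g, hg, rfl⟩ := h hk
  exact ⟨g, ⟨hk, hg⟩, rfl⟩

theorem RN.map (f : G →* Q) {M H : Subgroup G} (hM : M ≤ H) (h : RN M H) :
    RN (M.map f) (H.map f) := by
  intro c hc hc1 hc2
  obtain ⟨a, ha⟩ := h (fun n => (c n).comap f ⊓ H)
    (fun i j hij => inf_le_inf_right _ (comap_mono (hc hij)))
    (fun n => le_inf (map_le_iff_le_comap.1 (hc1 n)) hM) (fun n => inf_le_right)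
  refine ⟨a, fun m hm => ?_⟩
  have := congrArg (Subgroup.map f) (ha m hm)
  rwa [map_comap_inf f _ _ (hc2 m), map_comap_inf f _ _ (hc2 a)] at this

theorem Noeth.map (f : G →* Q) {H : Subgroup G} (h : Noeth H) : Noeth (H.map f) := by
  have := RN.map f bot_le h
  rwa [Subgroup.map_bot] at this

theorem Noeth.le {H K : Subgroup G} (h : Noeth H) (hK : K ≤ H) : Noeth K := h.mono le_rfl hK

theorem RN.of_map (f : G →* Q) {H : Subgroup G} (h : Noeth (H.map f)) : RN f.ker (H ⊔ f.ker) := by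
  have := RN.comap f bot_le h
  rwa [MonoidHom.comap_bot, comap_map_eq] at this

theorem RN.inf_right {M H : Subgroup G} (X : Subgroup G) (h : RN M H) (hM : M ≤ H)
    (hn : H ⊓ X ≤ normalizer (M : Set G)) : RN (M ⊓ X) (H ⊓ X) := by
  intro c hc hc1 hc2
  obtain ⟨a, ha⟩ := h (fun n => c n ⊔ M) (fun i j hij => sup_le_sup_right (hc hij) _)
    (fun n => le_sup_right) (fun n => sup_le ((hc2 n).trans inf_le_left) hM)
  refine ⟨a, fun m hm => modular_eq (hc hm) ((hc2 _).trans hn) ?_ ?_⟩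
  · exact le_trans (inf_le_inf ((hc2 m).trans inf_le_right) le_rfl)
      (by rw [inf_comm]; exact hc1 a)
  · rw [← ha m hm]; exact le_sup_left

theorem RN.inf_right' {M H : Subgroup G} [M.Normal] (X : Subgroup G) (h : RN M H) (hM : M ≤ H) :
    RN (M ⊓ X) (H ⊓ X) :=
  h.inf_right X hM (by rw [normalizer_eq_top]; exact le_top)

/-- kernel version: `H / (H ∩ ker f)` is noetherian if the image is. -/
theorem RN.ker_inf (f : G →* Q) {H : Subgroup G} (h : Noeth (H.map f)) : RN (f.ker ⊓ H) H :=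
  ((RN.of_map f h).inf_right' H le_sup_right).mono le_rfl (le_inf le_sup_left le_rfl)

theorem Noeth.of_map (f : G →* Q) {H : Subgroup G} (h1 : Noeth (f.ker ⊓ H))
    (h2 : Noeth (H.map f)) : Noeth H := by
  refine RN.trans h1 (RN.ker_inf f h2) bot_le inf_le_right ?_
  intro g hg
  rw [mem_normalizer_iff]
  intro x
  constructor
  · rintro ⟨h1, h2⟩
    exact ⟨f.normal_ker.conj_mem _ h1 g, H.mul_mem (H.mul_mem hg h2) (H.inv_mem hg)⟩
  · rintro ⟨h1, h2⟩
    refine ⟨by simpa [mul_assoc] using f.normal_ker.conj_mem _ h1 g⁻¹, ?_⟩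
    have := H.mul_mem (H.mul_mem (H.inv_mem hg) h2) hg
    simpa [mul_assoc] using this

theorem RN.sup {A H : Subgroup G} [A.Normal] (h : RN (A ⊓ H) H) : RN A (H ⊔ A) := by
  have h1 := h.map (QuotientGroup.mk' A) inf_le_right
  have h2 : (A ⊓ H).map (QuotientGroup.mk' A) = ⊥ := by
    rw [Subgroup.map_eq_bot_iff, QuotientGroup.ker_mk']; exact inf_le_left
  rw [h2] at h1
  have := RN.of_map _ h1
  rwa [QuotientGroup.ker_mk'] at this

theorem Noeth.rn_sup {A H : Subgroup G} [A.Normal] (h : Noeth H) : RN A (H ⊔ A) :=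
  RN.sup (h.mono bot_le le_rfl)

theorem Noeth.sup {A H : Subgroup G} [A.Normal] (h : Noeth H) (hA : Noeth A) : Noeth (H ⊔ A) :=
  RN.trans' hA h.rn_sup bot_le le_sup_right

/-- transfer along the quotient map -/
theorem rn_iff_map {A H : Subgroup G} [A.Normal] (hA : A ≤ H) :
    RN A H ↔ Noeth (H.map (QuotientGroup.mk' A)) := by
  constructor
  · intro h
    have h1 := h.map (QuotientGroup.mk' A) hA
    have h2 : A.map (QuotientGroup.mk' A) = ⊥ := by
      rw [Subgroup.map_eq_bot_iff, QuotientGroup.ker_mk']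
    rwa [h2] at h1
  · intro h
    have := RN.of_map _ h
    rw [QuotientGroup.ker_mk'] at this
    exact this.mono le_rfl le_sup_left

theorem relIndex_ne_zero_iff {K X : Subgroup G} :
    K.relIndex X ≠ 0 ↔ ∃ T : Set G, T.Finite ∧ T ⊆ X ∧ ∀ x ∈ X, ∃ t ∈ T, t⁻¹ * x ∈ K := by
  constructor
  · intro h
    have : Finite (X ⧸ K.subgroupOf X) := Nat.finite_of_card_ne_zero h
    refine ⟨Set.range (fun q : X ⧸ K.subgroupOf X => (q.out : G)), Set.finite_range _, ?_, ?_⟩
    · rintro _ ⟨q, rfl⟩; exact q.out.2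
    · intro x hx
      refine ⟨_, ⟨QuotientGroup.mk ⟨x, hx⟩, rfl⟩, ?_⟩
      have : (QuotientGroup.mk (QuotientGroup.mk (⟨x, hx⟩ : X) : X ⧸ K.subgroupOf X).out :
          X ⧸ K.subgroupOf X) = QuotientGroup.mk ⟨x, hx⟩ := QuotientGroup.out_eq' _
      rw [QuotientGroup.eq] at this
      exact this
  · rintro ⟨T, hT, hTX, h⟩
    have : Finite T := hT
    have : Finite (X ⧸ K.subgroupOf X) := by
      refine Finite.of_surjective (fun t : T => (QuotientGroup.mk ⟨t.1, hTX t.2⟩ :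
        X ⧸ K.subgroupOf X)) ?_
      intro q
      induction q using QuotientGroup.induction_on with
      | H x =>
        obtain ⟨t, ht, h⟩ := h x.1 x.2
        exact ⟨⟨t, ht⟩, QuotientGroup.eq.2 h⟩
    exact Nat.card_pos.ne'

theorem finiteIndex_iff' {K : Subgroup G} :
    K.FiniteIndex ↔ ∃ T : Set G, T.Finite ∧ ∀ x, ∃ t ∈ T, t⁻¹ * x ∈ K := by
  rw [finiteIndex_iff, ← relIndex_top_right, relIndex_ne_zero_iff]
  simp

theorem RN.finiteIndex {M Y X : Subgroup G} (h : RN M Y) (hM : M ≤ Y) (hi : Y.relIndex X ≠ 0) :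
    RN M X := by
  intro c hc hc1 hc2
  obtain ⟨a, ha⟩ := h (fun n => c n ⊓ Y) (fun i j hij => inf_le_inf_right _ (hc hij))
    (fun n => le_inf (hc1 n) hM) (fun n => inf_le_right)
  have hne : ∀ n, Y.relIndex (c n) ≠ 0 := fun n h0 => hi (relIndex_eq_zero_of_le_right (hc2 n) h0)
  have hb : ∀ n, Y.relIndex (c n) ≤ Y.relIndex X := fun n => relIndex_le_of_le_right (hc2 n) hi
  have hmono : Monotone (fun n => Y.relIndex (c n)) :=
    fun i j hij => relIndex_le_of_le_right (hc hij) (hne j)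
  obtain ⟨v, b, hb'⟩ := converges_of_monotone_of_bounded hmono hb
  refine ⟨max a b, fun m hm => ?_⟩
  set n := max a b
  have e1 : c m ⊓ Y = c n ⊓ Y := (ha m (le_trans (le_max_left _ _) hm)).trans
    (ha n (le_max_left _ _)).symm
  have e2 : Y.relIndex (c m) = Y.relIndex (c n) :=
    (hb' m (le_trans (le_max_right _ _) hm)).trans (hb' n (le_max_right _ _)).symm
  have e3 := relIndex_mul_relIndex (c n ⊓ Y) (c n) (c m) inf_le_left (hc hm)
  rw [inf_relIndex_left, ← e1, inf_relIndex_left, e2] at e3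
  have e4 : (c n).relIndex (c m) = 1 := by
    have := hne n
    exact (mul_right_eq_self₀.1 e3).resolve_right this
  exact le_antisymm (relIndex_eq_one.1 e4) (hc hm)

theorem RN.of_relIndex {M X : Subgroup G} (hi : M.relIndex X ≠ 0) : RN M X :=
  (RN.of_le le_rfl).finiteIndex le_rfl hi

theorem Noeth.of_finite {H : Subgroup G} (h : Finite H) : Noeth H :=
  RN.of_relIndex (by rw [relIndex_bot_left]; exact Nat.card_pos.ne')

theorem RN.fg {M K : Subgroup G} (h : RN M K) (hM : M ≤ K) :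
    ∃ S : Set G, S.Finite ∧ S ⊆ K ∧ closure S ⊔ M = K := by
  by_contra hcon
  have step : ∀ S : {S : Set G // S.Finite ∧ S ⊆ K}, ∃ x ∈ K, x ∉ closure S.1 ⊔ M := by
    intro S
    by_contra h2
    push Not at h2
    exact hcon ⟨S.1, S.2.1, S.2.2, le_antisymm (sup_le ((closure_le _).2 S.2.2) hM) h2⟩
  choose x hx1 hx2 using step
  let s : ℕ → {S : Set G // S.Finite ∧ S ⊆ K} := fun n =>
    Nat.rec ⟨∅, Set.finite_empty, Set.empty_subset _⟩
      (fun _ S => ⟨insert (x S) S.1, S.2.1.insert _, Set.insert_subset (hx1 S) S.2.2⟩) n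
  have hs : ∀ n, (s (n + 1)).1 = insert (x (s n)) (s n).1 := fun n => rfl
  obtain ⟨a, ha⟩ := h (fun n => closure (s n).1 ⊔ M)
    (monotone_nat_of_le_succ fun n => sup_le_sup_right (Subgroup.closure_mono (by
      rw [hs]; exact Set.subset_insert _ _)) _)
    (fun n => le_sup_right) (fun n => sup_le ((closure_le _).2 (s n).2.2) hM)
  apply hx2 (s a)
  rw [← ha (a + 1) (Nat.le_succ a)]
  exact mem_sup_left (subset_closure (by rw [hs]; exact Set.mem_insert _ _))

theorem RN.of_fg {M H : Subgroup G}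
    (h : ∀ K, M ≤ K → K ≤ H → ∃ S : Set G, S.Finite ∧ closure S ⊔ M = K) : RN M H := by
  intro c hc hc1 hc2
  obtain ⟨S, hS, hSK⟩ := h (⨆ n, c n) (le_iSup_of_le 0 (hc1 0)) (iSup_le hc2)
  have : ∀ s ∈ S, ∃ n, s ∈ c n := fun s hs =>
    (mem_iSup_of_directed hc.directed_le).1 (hSK ▸ mem_sup_left (subset_closure hs))
  choose! k hk using this
  obtain ⟨a, ha⟩ := (hS.image k).bddAbove
  refine ⟨a, fun m hm => le_antisymm ((le_iSup c m).trans ?_) (hc hm)⟩
  rw [← hSK]
  exact sup_le ((closure_le _).2 fun s hs => hc (ha ⟨s, hs, rfl⟩) (hk s hs)) (hc1 a)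

theorem Noeth.fg {H : Subgroup G} (h : Noeth H) : H.FG := by
  obtain ⟨S, hS, -, hSH⟩ := RN.fg h bot_le
  rw [sup_bot_eq] at hSH
  exact (fg_iff H).2 ⟨S, hSH, hS⟩

theorem noeth_iff {H : Subgroup G} : Noeth H ↔ ∀ K ≤ H, K.FG := by
  refine ⟨fun h K hK => (h.le hK).fg, fun h => RN.of_fg fun K _ hK => ?_⟩
  obtain ⟨S, hS1, hS2⟩ := (fg_iff K).1 (h K hK)
  exact ⟨S, hS2, by rw [sup_bot_eq, hS1]⟩

theorem noeth_top_of_comm {A : Type*} [CommGroup A] [h : Group.FG A] : Noeth (⊤ : Subgroup A) := by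
  rw [noeth_iff]
  intro K _
  have : Module.Finite ℤ (Additive A) := Module.Finite.iff_addGroup_fg.2 inferInstance
  rw [Subgroup.fg_iff_add_fg]
  have := IsNoetherian.noetherian (R := ℤ) (AddSubgroup.toIntSubmodule K.toAddSubgroup)
  rwa [Submodule.fg_iff_addSubgroup_fg] at this

theorem noeth_of_top {H : Subgroup G} (h : Noeth (⊤ : Subgroup H)) : Noeth H := by
  have := h.map H.subtype
  rwa [← MonoidHom.range_eq_map, range_subtype] at this

theorem noeth_top {H : Subgroup G} (h : Noeth H) : Noeth (⊤ : Subgroup H) := by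
  have := RN.comap H.subtype bot_le h
  rwa [MonoidHom.comap_bot, ker_subtype, comap_subtype, subgroupOf_self] at this

theorem noeth_of_comm {H : Subgroup G} (hc : ∀ a ∈ H, ∀ b ∈ H, a * b = b * a) (h : H.FG) :
    Noeth H := by
  let : CommGroup H := { (inferInstance : Group H) with
    mul_comm := fun a b => Subtype.ext (hc a.1 a.2 b.1 b.2) }
  have : Group.FG H := (Group.fg_iff_subgroup_fg H).2 h
  exact noeth_of_top noeth_top_of_comm

theorem closure_comm {S : Set G} (hc : ∀ a ∈ S, ∀ b ∈ S, a * b = b * a) :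
    ∀ a ∈ closure S, ∀ b ∈ closure S, a * b = b * a := by
  have h1 : closure S ≤ centralizer S := (closure_le _).2 fun a ha b hb => hc b hb a ha
  intro a ha b hb
  have h2 : b ∈ centralizer (closure S : Set G) := by rw [centralizer_closure]; exact h1 hb
  exact h2 a ha

/-- a finitely generated abelian section is noetherian -/
theorem rn_of_fg_comm {K : Subgroup G} [K.Normal] {S : Set G} (hS : S.Finite)
    (hc : ∀ a ∈ S, ∀ b ∈ S, ⁅a, b⁆ ∈ K) : RN K (closure S ⊔ K) := by
  have := RN.of_map (QuotientGroup.mk' K) (H := closure S) (by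
    rw [MonoidHom.map_closure]
    refine noeth_of_comm (closure_comm ?_) ((fg_iff _).2 ⟨_, rfl, hS.image _⟩)
    rintro _ ⟨a, ha, rfl⟩ _ ⟨b, hb, rfl⟩
    rw [← commutatorElement_eq_one_iff_mul_comm, ← map_commutatorElement]
    exact (QuotientGroup.eq_one_iff _).2 (hc a ha b hb))
  rwa [QuotientGroup.ker_mk'] at this

end Pool.Agent.P.MP_3540e7_al
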