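import Pool.Agent.P.MP_3540e7_al.Dir

set_option autoImplicit false

namespace Pool.Agent.P.MP_3540e7_al

open Subgroup
open scoped commutatorElement

variable {G : Type*} [Group G] {Q : Type*} [Group Q]

/-- elements of `H` commuting with `y` modulo a subgroup normalized by `H` -/
def CN (H M : Subgroup G) (hn : H ≤ normalizer (M : Set G)) (y : G) : Subgroup G where
  carrier := {g | g ∈ H ∧ ⁅g, y⁆ ∈ M}
  one_mem' := ⟨one_mem _, by simp⟩
  mul_mem' := by
    rintro a b ⟨ha, ha'⟩ ⟨hb, hb'⟩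
    refine ⟨mul_mem ha hb, ?_⟩
    rw [commutatorElement_mul_left_eq_conj_mul]
    exact mul_mem ((mem_normalizer_iff.1 (hn ha) _).1 hb') ha'
  inv_mem' := by
    rintro a ⟨ha, ha'⟩
    refine ⟨inv_mem ha, ?_⟩
    have : ⁅a⁻¹, y⁆ = a⁻¹ * ⁅a, y⁆⁻¹ * a⁻¹⁻¹ := by simp only [commutatorElement_def]; group
    rw [this]
    exact (mem_normalizer_iff.1 (hn (inv_mem ha)) _).1 (inv_mem ha')

theorem mem_CN {H M : Subgroup G} {hn : H ≤ normalizer (M : Set G)} {y g : G} :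
    g ∈ CN H M hn y ↔ g ∈ H ∧ ⁅g, y⁆ ∈ M := Iff.rfl

theorem le_norm_top {X M : Subgroup G} [M.Normal] : X ≤ normalizer (M : Set G) := by
  rw [normalizer_eq_top]; exact le_top

theorem le_normalizer_of_conj {X J : Subgroup G} (h : ∀ g ∈ X, ∀ j ∈ J, g * j * g⁻¹ ∈ J) :
    X ≤ normalizer (J : Set G) := by
  intro g hg
  rw [mem_normalizer_iff]
  intro j
  refine ⟨h g hg j, fun hj => ?_⟩
  simpa [mul_assoc] using h g⁻¹ (inv_mem hg) _ hj

theorem le_normalizer_of_comm {X J : Subgroup G} (h : ∀ g ∈ X, ∀ j ∈ J, ⁅g, j⁆ ∈ J) :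
    X ≤ normalizer (J : Set G) :=
  le_normalizer_of_conj fun g hg j hj => by
    simpa [commutatorElement_def] using J.mul_mem (h g hg j hj) hj

theorem le_normalizer_sup {X M M' : Subgroup G} (hn : X ≤ normalizer (M : Set G))
    (hn' : X ≤ normalizer (M' : Set G)) : X ≤ normalizer ((M ⊔ M' : Subgroup G) : Set G) := by
  refine le_normalizer_of_conj fun g hg j hj => ?_
  have : M ⊔ M' ≤ (M ⊔ M').comap (MulAut.conj g).toMonoidHom :=
    sup_le (fun m hm => mem_sup_left ((mem_normalizer_iff.1 (hn hg) m).1 hm))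
      (fun m hm => mem_sup_right ((mem_normalizer_iff.1 (hn' hg) m).1 hm))
  exact this hj

theorem fg_of_relIndex {K D : Subgroup G} (hD : D.FG) (hle : K ≤ D) (hi : K.relIndex D ≠ 0) :
    K.FG := by
  have : Group.FG D := (Group.fg_iff_subgroup_fg D).2 hD
  have : (K.subgroupOf D).FiniteIndex := ⟨hi⟩
  have h1 : Group.FG (K.subgroupOf D) := Subgroup.fg_of_index_ne_zero _
  have h2 : Group.FG K := Group.fg_of_surjective (f := (subgroupOfEquivOfLe hle).toMonoidHom)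
    (subgroupOfEquivOfLe hle).surjective
  exact (Group.fg_iff_subgroup_fg K).1 h2

theorem finiteIndex_sup_of_relIndex {K D N : Subgroup G} [N.Normal] (hi : K.relIndex D ≠ 0)
    (h : (D ⊔ N).FiniteIndex) : (K ⊔ N).FiniteIndex := by
  obtain ⟨T₁, hT₁, h₁⟩ := finiteIndex_iff'.1 h
  obtain ⟨T₂, hT₂, -, h₂⟩ := relIndex_ne_zero_iff.1 hi
  refine finiteIndex_iff'.2 ⟨Set.image2 (· * ·) T₁ T₂, hT₁.image2 _ hT₂, fun x => ?_⟩
  obtain ⟨t₁, ht₁, h₁⟩ := h₁ x
  obtain ⟨d, hd, n, hn, h₁⟩ := (mem_sup_norm le_norm_top).1 h₁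
  obtain ⟨t₂, ht₂, h₂⟩ := h₂ d hd
  refine ⟨_, ⟨t₁, ht₁, t₂, ht₂, rfl⟩, ?_⟩
  have : (t₁ * t₂)⁻¹ * x = (t₂⁻¹ * d) * n := by
    rw [mul_inv_rev, mul_assoc, ← h₁, mul_assoc]
  simp only [this]
  exact mul_mem_sup h₂ hn

theorem finiteIndex_biInf {ι : Type*} {T : Set ι} (hT : T.Finite) {f : ι → Subgroup G}
    (h : ∀ i ∈ T, (f i).FiniteIndex) : (⨅ i ∈ T, f i).FiniteIndex := by
  have : Finite T := hT
  rw [iInf_subtype']
  exact finiteIndex_iInf fun ⟨i, hi⟩ => h i hi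

/-- the configuration of a minimal counterexample -/
structure Cfg (L N : Subgroup G) (c : ℕ) : Prop where
  hC : ∀ F : Set G, F.Finite → (centralizer F).FG
  hLN : L ≤ N
  hNN : ⁅N, N⁆ ≤ L
  hc : gam L c = ⊥
  hN : RN N ⊤
  hSt : ∀ F : Set G, F.Finite → ¬ Noeth (centralizer F) → (centralizer F ⊔ N).FiniteIndex
  hn : ¬ RN L N

/-- an element of `N` with infinitely many conjugates modulo `L` -/
def Killer (L N : Subgroup G) [L.Normal] (x : G) : Prop := x ∈ N ∧ ¬ (CM L x).FiniteIndex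

variable {L N : Subgroup G} [L.Normal] [N.Normal] {c : ℕ}

omit [L.Normal] [N.Normal] in
theorem Cfg.fg (h : Cfg L N c) : Group.FG G := by
  have := h.hC ∅ Set.finite_empty
  rw [show centralizer (∅ : Set G) = ⊤ from by ext; simp [mem_centralizer_iff]] at this
  exact ⟨this⟩

omit [N.Normal] in
theorem Cfg.N_le_CM (h : Cfg L N c) {x : G} (hx : x ∈ N) : N ≤ CM L x :=
  fun _ hn => mem_CM.2 (h.hNN (commutator_mem_commutator hx hn))

omit [N.Normal] in
theorem Cfg.noeth_killer (h : Cfg L N c) {x : G} (hx : Killer L N x) :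
    Noeth (centralizer {x}) := by
  by_contra h1
  have := h.hSt {x} (Set.finite_singleton x) h1
  refine hx.2 (finiteIndex_of_le (H := centralizer {x} ⊔ N) (sup_le ?_ (h.N_le_CM hx.1)))
  rw [← CM_bot]
  exact CM_mono bot_le x

theorem CM_conj {B : Subgroup G} [hB : B.Normal] (x g : G) :
    CM B (g * x * g⁻¹) = (CM B x).comap (MulAut.conj g⁻¹).toMonoidHom := by
  ext y
  simp only [mem_comap, mem_CM, MulEquiv.coe_toMonoidHom, MulAut.conj_apply]
  have : ⁅x, g⁻¹ * y * g⁻¹⁻¹⁆ = g⁻¹ * ⁅g * x * g⁻¹, y⁆ * g⁻¹⁻¹ := by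
    simp only [commutatorElement_def]; group
  rw [this]
  exact ⟨fun h => hB.conj_mem _ h _, fun h => by simpa [mul_assoc] using hB.conj_mem _ h g⟩

/-- the elements of `N` with finitely many conjugates modulo `L` -/
def FO (L N : Subgroup G) [L.Normal] : Subgroup G where
  carrier := {x | x ∈ N ∧ (CM L x).FiniteIndex}
  one_mem' := ⟨one_mem _, by
    rw [show CM L (1 : G) = ⊤ from by ext; simp [mem_CM]]; infer_instance⟩
  mul_mem' := by
    rintro a b ⟨ha, ha'⟩ ⟨hb, hb'⟩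
    refine ⟨mul_mem ha hb, finiteIndex_of_le (H := CM L a ⊓ CM L b) ?_⟩
    rintro g ⟨h1, h2⟩
    exact mem_CM.2 (mem_CM'.1 (mul_mem (mem_CM'.2 (mem_CM.1 h1)) (mem_CM'.2 (mem_CM.1 h2))))
  inv_mem' := by
    rintro a ⟨ha, ha'⟩
    refine ⟨inv_mem ha, finiteIndex_of_le (H := CM L a) ?_⟩
    intro g h1
    exact mem_CM.2 (mem_CM'.1 (inv_mem (mem_CM'.2 (mem_CM.1 h1))))

instance FO_normal : (FO L N).Normal where
  conj_mem := by
    rintro a ⟨ha, ha'⟩ g
    refine ⟨‹N.Normal›.conj_mem a ha g, ⟨?_⟩⟩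
    rw [CM_conj, index_comap_of_surjective _ (MulAut.conj g⁻¹).surjective]
    exact ha'.index_ne_zero

theorem Cfg.exists_killer [Group.IsSolvable G] (h : Cfg L N c) {M : Subgroup G} (hM : M ≤ N)
    (hr : RN M N) : ∃ x ∈ M, Killer L N x := by
  by_contra hcon
  push Not at hcon
  have := h.fg
  have h1 : M ≤ FO L N := fun x hx => ⟨hM hx, by
    by_contra h2; exact hcon x hx ⟨hM hx, h2⟩⟩
  have h2 : FO L N ≤ N := fun _ hx => hx.1
  have h3 : L ≤ FO L N := fun x hx => ⟨h.hLN hx, by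
    rw [show CM L x = ⊤ from by
      rw [eq_top_iff]; intro g _; exact mem_CM.2 (comm_mem_left hx g)]
    infer_instance⟩
  have h4 : RN (FO L N) N := hr.mono h1 le_rfl
  have h5 : RN L (FO L N) := rn_of_finite_orbits (H := ⊤) (h4.trans' h.hN h2 le_top) h3
    ((commutator_mono h2 h2).trans h.hNN) le_norm_top
    (fun y hy => ⟨CM L y, hy.2, fun g hg => mem_CM'.1 hg⟩)
  exact h.hn (h5.trans' h4 h3 h2)

omit [N.Normal] in
theorem Killer.of_mul (hLN : L ≤ N) {w l : G} (hl : l ∈ L) (h : Killer L N (w * l)) :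
    Killer L N w := by
  refine ⟨by simpa using N.mul_mem h.1 (N.inv_mem (hLN hl)), fun h1 => h.2 ?_⟩
  refine finiteIndex_of_le (H := CM L w) fun g hg => ?_
  exact mem_CM.2 (mem_CM'.1 (mul_mem (mem_CM'.2 (mem_CM.1 hg)) (le_CM L g hl)))

theorem Cfg.exists_killer' [Group.IsSolvable G] (h : Cfg L N c) {M : Subgroup G} (hM : M ≤ N)
    (hr : RN (M ⊔ L) N) : ∃ x ∈ M, Killer L N x := by
  obtain ⟨x, hx, hk⟩ := h.exists_killer (sup_le hM h.hLN) hr
  obtain ⟨w, hw, l, hl, rfl⟩ := (mem_sup_norm le_norm_top).1 hx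
  exact ⟨w, hw, hk.of_mul h.hLN hl⟩

end Pool.Agent.P.MP_3540e7_al
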