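import Pool.Agent.P.MP_3540e7_al.Long

set_option autoImplicit false

namespace Pool.Agent.P.MP_3540e7_al

open Subgroup
open scoped commutatorElement

variable {G : Type*} [Group G] {Q : Type*} [Group Q]

theorem le_iff_map_eq_bot {X W : Subgroup G} [W.Normal] :
    X ≤ W ↔ X.map (QuotientGroup.mk' W) = ⊥ := by
  rw [Subgroup.map_eq_bot_iff, QuotientGroup.ker_mk']

theorem three_subgroups {X Y Z W : Subgroup G} [W.Normal] (h1 : ⁅⁅Y, Z⁆, X⁆ ≤ W)
    (h2 : ⁅⁅Z, X⁆, Y⁆ ≤ W) : ⁅⁅X, Y⁆, Z⁆ ≤ W := by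
  rw [le_iff_map_eq_bot] at h1 h2 ⊢
  simp only [map_commutator] at h1 h2 ⊢
  exact commutator_commutator_eq_bot_of_rotate h1 h2

/-- lower central series of a subgroup, inside the ambient group -/
def gam (L : Subgroup G) : ℕ → Subgroup G
  | 0 => L
  | j + 1 => ⁅gam L j, L⁆

instance gam_normal (L : Subgroup G) [L.Normal] : ∀ j, (gam L j).Normal
  | 0 => ‹_›
  | j + 1 => by have := gam_normal L j; unfold gam; infer_instance

theorem gam_succ (L : Subgroup G) (j : ℕ) : gam L (j + 1) = ⁅gam L j, L⁆ := rfl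

theorem gam_succ_le (L : Subgroup G) [L.Normal] (j : ℕ) : gam L (j + 1) ≤ gam L j :=
  commutator_le_left _ _

theorem gam_le (L : Subgroup G) [L.Normal] : ∀ j, gam L j ≤ L
  | 0 => le_rfl
  | j + 1 => (gam_succ_le L j).trans (gam_le L j)

theorem gam_mono {L L' : Subgroup G} (h : L ≤ L') : ∀ j, gam L j ≤ gam L' j
  | 0 => h
  | j + 1 => commutator_mono (gam_mono h j) h

theorem gam_map (f : G →* Q) (L : Subgroup G) : ∀ j, (gam L j).map f = gam (L.map f) j
  | 0 => rfl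
  | j + 1 => by rw [gam_succ, gam_succ, map_commutator, gam_map f L j]

theorem gam_comm (L : Subgroup G) [L.Normal] : ∀ b a, ⁅gam L a, gam L b⁆ ≤ gam L (a + b + 1)
  | 0, a => le_rfl
  | b + 1, a => by
    rw [commutator_comm, gam_succ L b]
    refine three_subgroups ?_ ?_
    · rw [commutator_comm L, ← gam_succ]
      exact (gam_comm L b (a + 1)).trans (by rw [show a + 1 + b + 1 = a + (b + 1) + 1 by omega])
    · exact (commutator_mono (gam_comm L b a) le_rfl).trans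
        (by rw [← gam_succ, show a + b + 1 + 1 = a + (b + 1) + 1 by omega])

theorem gam_gam (L : Subgroup G) [L.Normal] : ∀ j, gam (gam L 1) j ≤ gam L (j + 1)
  | 0 => le_rfl
  | j + 1 => commutator_mono (gam_gam L j) (gam_le L 1)

theorem gam_step {R R' W : Subgroup G} [R.Normal] [R'.Normal] (hR : R ≤ R')
    (h : ⁅R, W⁆ ≤ gam R' 1) : ∀ j, ⁅gam R j, W⁆ ≤ gam R' (j + 1)
  | 0 => h
  | j + 1 => by
    rw [gam_succ R j]
    refine three_subgroups ?_ ?_
    · refine (commutator_mono h (gam_mono hR j)).trans ((gam_comm R' j 1).trans ?_)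
      rw [show 1 + j + 1 = j + 1 + 1 by omega]
    · rw [commutator_comm W]
      exact commutator_mono (gam_step hR h j) hR

/-- the centralizer of `f` modulo the normal subgroup `B` -/
def CM (B : Subgroup G) [B.Normal] (f : G) : Subgroup G :=
  (centralizer {QuotientGroup.mk' B f}).comap (QuotientGroup.mk' B)

theorem mem_CM {B : Subgroup G} [B.Normal] {f g : G} : g ∈ CM B f ↔ ⁅f, g⁆ ∈ B := by
  rw [CM, mem_comap, mem_centralizer_singleton_iff, eq_comm, ← commutatorElement_eq_one_iff_mul_comm,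
    ← map_commutatorElement]
  exact QuotientGroup.eq_one_iff _

theorem mem_CM' {B : Subgroup G} [B.Normal] {f g : G} : g ∈ CM B f ↔ ⁅g, f⁆ ∈ B := by
  rw [mem_CM, ← commutatorElement_inv, inv_mem_iff]

theorem le_CM (B : Subgroup G) [B.Normal] (f : G) : B ≤ CM B f := fun b hb => by
  rw [mem_CM, commutatorElement_def, mul_assoc, mul_assoc, ← mul_assoc, ← mul_assoc]
  exact B.mul_mem (‹B.Normal›.conj_mem b hb f) (B.inv_mem hb)

theorem CM_mono {B B' : Subgroup G} [B.Normal] [B'.Normal] (h : B ≤ B') (f : G) :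
    CM B f ≤ CM B' f := fun _ hg => mem_CM.2 (h (mem_CM.1 hg))

theorem CM_bot (f : G) : CM ⊥ f = centralizer {f} := by
  ext g
  rw [mem_CM, mem_bot, commutatorElement_eq_one_iff_mul_comm, mem_centralizer_singleton_iff, eq_comm]

theorem comm_mem_left {B : Subgroup G} [h : B.Normal] {b : G} (hb : b ∈ B) (g : G) : ⁅b, g⁆ ∈ B :=
  mem_CM'.1 (le_CM B g hb)

theorem comm_mem_right {B : Subgroup G} [h : B.Normal] {b : G} (hb : b ∈ B) (g : G) : ⁅g, b⁆ ∈ B :=
  mem_CM.1 (le_CM B g hb)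

/-- the commutator map `g ↦ [f, g]` modulo `B` -/
def delta (B : Subgroup G) [B.Normal] (X : Subgroup G) (f : G)
    (h : ∀ g ∈ X, ∀ g' ∈ X, ⁅g, ⁅f, g'⁆⁆ ∈ B) : X →* G ⧸ B :=
  MonoidHom.mk' (fun g => QuotientGroup.mk' B ⁅f, g.1⁆) (by
    intro a b
    have h1 := (QuotientGroup.eq_one_iff _).2 (h a.1 a.2 b.1 b.2)
    have h2 : ⁅f, (a * b).1⁆ = ⁅f, a.1⁆ * ⁅a.1, ⁅f, b.1⁆⁆ * ⁅f, b.1⁆ := by
      simp only [commutatorElement_def, Subgroup.coe_mul]; group
    rw [h2, map_mul, map_mul, QuotientGroup.mk'_apply B ⁅a.1, _⁆, h1, mul_one])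

theorem delta_ker (B : Subgroup G) [B.Normal] (X : Subgroup G) (f : G)
    (h : ∀ g ∈ X, ∀ g' ∈ X, ⁅g, ⁅f, g'⁆⁆ ∈ B) :
    (delta B X f h).ker.map X.subtype = X ⊓ CM B f := by
  ext g
  constructor
  · rintro ⟨a, ha, rfl⟩
    exact ⟨a.2, mem_CM.2 ((QuotientGroup.eq_one_iff _).1 ha)⟩
  · rintro ⟨h1, h2⟩
    exact ⟨⟨g, h1⟩, (QuotientGroup.eq_one_iff _).2 (mem_CM.1 h2), rfl⟩

theorem delta_range (B : Subgroup G) [B.Normal] (X : Subgroup G) (f : G)
    (h : ∀ g ∈ X, ∀ g' ∈ X, ⁅g, ⁅f, g'⁆⁆ ∈ B) {Z : Subgroup G} (hZ : ∀ g ∈ X, ⁅f, g⁆ ∈ Z) :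
    (delta B X f h).range ≤ Z.map (QuotientGroup.mk' B) := by
  rintro _ ⟨g, rfl⟩
  exact ⟨_, hZ g.1 g.2, rfl⟩

theorem le_normalizer_ker {X : Subgroup G} (f : X →* Q) :
    X ≤ normalizer ((f.ker.map X.subtype : Subgroup G) : Set G) := by
  intro g hg
  rw [mem_normalizer_iff]
  intro x
  constructor
  · rintro ⟨a, ha, rfl⟩
    exact ⟨_, f.normal_ker.conj_mem a ha ⟨g, hg⟩, rfl⟩
  · rintro ⟨a, ha, h⟩
    refine ⟨_, f.normal_ker.conj_mem a ha ⟨g, hg⟩⁻¹, ?_⟩
    simp only [coe_subtype, Subgroup.coe_mul, Subgroup.coe_inv, inv_inv] at h ⊢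
    rw [h]; group

theorem rn_ker {X : Subgroup G} (f : X →* Q) (h : Noeth f.range) :
    RN (f.ker.map X.subtype) X := by
  rw [MonoidHom.range_eq_map] at h
  have := (RN.ker_inf f h).map X.subtype inf_le_right
  rwa [inf_top_eq, ← MonoidHom.range_eq_map, range_subtype] at this

theorem RN.inf {M M' X : Subgroup G} (h : RN M X) (h' : RN M' X) (hM : M ≤ X) (hM' : M' ≤ X)
    (hn : X ≤ normalizer (M : Set G)) (hn' : X ≤ normalizer (M' : Set G)) : RN (M ⊓ M') X := by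
  have := h.inf_right M' hM (inf_le_left.trans hn)
  rw [inf_eq_right.2 hM'] at this
  exact this.trans h' inf_le_right hM' hn'

theorem le_normalizer_inf {M M' X : Subgroup G} (hn : X ≤ normalizer (M : Set G))
    (hn' : X ≤ normalizer (M' : Set G)) : X ≤ normalizer ((M ⊓ M' : Subgroup G) : Set G) := by
  intro g hg
  have h1 := mem_normalizer_iff.1 (hn hg)
  have h2 := mem_normalizer_iff.1 (hn' hg)
  rw [mem_normalizer_iff]
  intro x
  simp only [mem_inf] at h1 h2 ⊢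
  rw [h1 x, h2 x]

/-- centralizer of a set modulo `B` -/
def CMs (B : Subgroup G) [B.Normal] (F : Set G) : Subgroup G := ⨅ f ∈ F, CM B f

theorem mem_CMs {B : Subgroup G} [B.Normal] {F : Set G} {g : G} :
    g ∈ CMs B F ↔ ∀ f ∈ F, ⁅f, g⁆ ∈ B := by
  simp [CMs, mem_iInf, mem_CM]

theorem rn_CMs {B Z X : Subgroup G} [B.Normal] (hZ : Noeth (Z.map (QuotientGroup.mk' B)))
    (hc : ∀ g ∈ X, ∀ z ∈ Z, ⁅g, z⁆ ∈ B) (F : Set G) (hF : F.Finite)
    (h : ∀ f ∈ F, ∀ g ∈ X, ⁅f, g⁆ ∈ Z) :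
    RN (X ⊓ CMs B F) X ∧ X ≤ normalizer ((X ⊓ CMs B F : Subgroup G) : Set G) := by
  induction F, hF using Set.Finite.induction_on with
  | empty =>
    have : X ⊓ CMs B ∅ = X := by simp [CMs]
    rw [this]; exact ⟨RN.of_le le_rfl, le_normalizer⟩
  | @insert f F _ hF ih =>
    obtain ⟨ih1, ih2⟩ := ih (fun f' hf' => h f' (Set.mem_insert_of_mem _ hf'))
    have hf := h f (Set.mem_insert _ _)
    have hd : ∀ g ∈ X, ∀ g' ∈ X, ⁅g, ⁅f, g'⁆⁆ ∈ B := fun g hg g' hg' => hc g hg _ (hf g' hg')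
    have h1 := rn_ker (delta B X f hd) (hZ.le (delta_range B X f hd hf))
    have h2 := le_normalizer_ker (delta B X f hd)
    rw [delta_ker] at h1 h2
    have e : X ⊓ CMs B (insert f F) = (X ⊓ CM B f) ⊓ (X ⊓ CMs B F) := by
      ext g; simp only [mem_inf, mem_CMs, mem_CM, Set.forall_mem_insert]; tauto
    rw [e]
    exact ⟨h1.inf ih1 inf_le_left inf_le_left h2 ih2, le_normalizer_inf h2 ih2⟩

theorem noeth_CMs {L B : Subgroup G} [L.Normal] [B.Normal] {c : ℕ} (hc : gam L c = ⊥)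
    {F : Set G} (hF : F.Finite) (h : Noeth (L ⊓ centralizer F)) (hB : Noeth B) :
    Noeth (L ⊓ CMs B F) := by
  have key : ∀ i, i ≤ c → Noeth (L ⊓ CMs (B ⊓ gam L (c - i)) F) := by
    intro i
    induction i with
    | zero =>
      intro _
      refine h.le (inf_le_inf_left _ fun g hg => ?_)
      intro f hf
      have := (mem_CMs.1 hg f hf).2
      rw [Nat.sub_zero, hc] at this
      exact commutatorElement_eq_one_iff_mul_comm.1 this
    | succ i ih =>
      intro hi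
      have ih := ih (by omega)
      have e : c - i = (c - (i + 1)) + 1 := by omega
      set j := c - (i + 1)
      rw [e] at ih
      obtain ⟨h1, h2⟩ := rn_CMs (B := gam L (j + 1)) (Z := B ⊓ gam L j)
        (X := L ⊓ CMs (B ⊓ gam L j) F) ((hB.le inf_le_left).map _)
        (fun g hg z hz => by
          rw [gam_succ, commutator_comm]; exact commutator_mem_commutator hg.1 hz.2) F hF
        (fun f hf g hg => mem_CMs.1 hg.2 f hf)
      refine RN.trans (ih.le ?_) h1 bot_le inf_le_left h2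
      rintro g ⟨⟨hg1, hg2⟩, hg3⟩
      exact ⟨hg1, mem_CMs.2 fun f hf => ⟨(mem_CMs.1 hg2 f hf).1, mem_CMs.1 hg3 f hf⟩⟩
  have := key c le_rfl
  rw [Nat.sub_self] at this
  refine this.le ?_
  rintro g ⟨hg1, hg2⟩
  exact ⟨hg1, mem_CMs.2 fun f hf => ⟨mem_CMs.1 hg2 f hf, comm_mem_right hg1 f⟩⟩

/-- descending induction along a chain on which `F` acts nilpotently -/
theorem noeth_chain {L : Subgroup G} [L.Normal] {c : ℕ} (hc : gam L c = ⊥)
    {F : Set G} (hF : F.Finite) (h : Noeth (L ⊓ centralizer F)) (Y : ℕ → Subgroup G)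
    [∀ j, (Y j).Normal] (hY : ∀ j, Y j ≤ L) {m : ℕ} (hm : Y m = ⊥)
    (hs : ∀ j < m, ∀ f ∈ F, ∀ y ∈ Y j, ⁅f, y⁆ ∈ Y (j + 1)) : Noeth (Y 0) := by
  have key : ∀ i, i ≤ m → Noeth (Y (m - i)) := by
    intro i
    induction i with
    | zero => intro _; rw [Nat.sub_zero, hm]; exact RN.of_le le_rfl
    | succ i ih =>
      intro hi
      have ih := ih (by omega)
      have e : m - i = (m - (i + 1)) + 1 := by omega
      rw [e] at ih
      refine (noeth_CMs hc hF h ih).le fun y hy => ⟨hY _ hy, mem_CMs.2 fun f hf => ?_⟩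
      exact hs _ (by omega) f hf y hy
  have := key m le_rfl
  rwa [Nat.sub_self] at this

theorem noeth_of_centralizer {L : Subgroup G} [L.Normal] {c : ℕ} (hc : gam L c = ⊥)
    {F : Set G} (hF : F.Finite) (hFL : F ⊆ L) (h : Noeth (L ⊓ centralizer F)) : Noeth L :=
  noeth_chain hc hF h (gam L) (gam_le L) hc (fun j _ f hf y hy => by
    rw [gam_succ, commutator_comm]; exact commutator_mem_commutator (hFL hf) hy)

theorem comm_pow_left {a b : G} (h : Commute a ⁅a, b⁆) (m : ℕ) : ⁅a ^ m, b⁆ = ⁅a, b⁆ ^ m := by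
  induction m with
  | zero => simp
  | succ m ih =>
    rw [pow_succ', commutatorElement_mul_left_eq_conj_mul, ih, (h.pow_right m).eq, pow_succ]
    group

/-- the preimage of the torsion subgroup of `gam L j / gam L (j+1)` -/
def tau (L : Subgroup G) [L.Normal] (j : ℕ) : Subgroup G where
  carrier := {g | g ∈ gam L j ∧ ∃ m, m ≠ 0 ∧ g ^ m ∈ gam L (j + 1)}
  one_mem' := ⟨one_mem _, 1, one_ne_zero, by simp⟩
  inv_mem' := by
    rintro g ⟨h1, m, hm, h2⟩
    exact ⟨inv_mem h1, m, hm, by rw [inv_pow]; exact inv_mem h2⟩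
  mul_mem' := by
    rintro a b ⟨ha, m, hm, ha'⟩ ⟨hb, n, hn, hb'⟩
    refine ⟨mul_mem ha hb, m * n, mul_ne_zero hm hn, ?_⟩
    have hc : Commute (QuotientGroup.mk' (gam L (j + 1)) a) (QuotientGroup.mk' _ b) := by
      rw [← commutatorElement_eq_one_iff_commute, ← map_commutatorElement]
      exact (QuotientGroup.eq_one_iff _).2 (commutator_mem_commutator ha (gam_le L j hb))
    rw [← QuotientGroup.eq_one_iff] at ha' hb' ⊢
    change QuotientGroup.mk' _ _ = 1 at ha' hb' ⊢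
    rw [map_pow] at ha' hb'
    rw [map_pow, map_mul, hc.mul_pow, pow_mul, ha', mul_comm, pow_mul, hb']
    simp

theorem mem_tau {L : Subgroup G} [L.Normal] {j : ℕ} {g : G} :
    g ∈ tau L j ↔ g ∈ gam L j ∧ ∃ m, m ≠ 0 ∧ g ^ m ∈ gam L (j + 1) := Iff.rfl

instance tau_normal (L : Subgroup G) [L.Normal] (j : ℕ) : (tau L j).Normal where
  conj_mem := by
    rintro a ⟨h1, m, hm, h2⟩ g
    refine ⟨(gam_normal L j).conj_mem a h1 g, m, hm, ?_⟩
    rw [conj_pow]
    exact (gam_normal L (j + 1)).conj_mem _ h2 g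

theorem tau_le (L : Subgroup G) [L.Normal] (j : ℕ) : tau L j ≤ gam L j := fun _ h => h.1

theorem le_tau (L : Subgroup G) [L.Normal] (j : ℕ) : gam L (j + 1) ≤ tau L j :=
  fun _ h => ⟨gam_succ_le L j h, 1, one_ne_zero, by rwa [pow_one]⟩

theorem tau_comm (L : Subgroup G) [L.Normal] (i j : ℕ) :
    ⁅tau L i, gam L j⁆ ≤ tau L (i + j + 1) := by
  rw [commutator_le]
  rintro a ⟨ha, m, hm, ha'⟩ b hb
  have h1 : ⁅a, b⁆ ∈ gam L (i + j + 1) := gam_comm L j i (commutator_mem_commutator ha hb)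
  refine ⟨h1, m, hm, ?_⟩
  have h2 : ⁅a ^ m, b⁆ ∈ gam L (i + j + 1 + 1) := by
    have := gam_comm L j (i + 1) (commutator_mem_commutator ha' hb)
    rwa [show i + 1 + j + 1 = i + j + 1 + 1 by omega] at this
  rw [← QuotientGroup.eq_one_iff] at h2 ⊢
  change QuotientGroup.mk' _ _ = 1 at h2 ⊢
  rw [map_commutatorElement, map_pow, comm_pow_left, ← map_commutatorElement, ← map_pow] at h2
  · exact h2
  · rw [← commutatorElement_eq_one_iff_commute, ← map_commutatorElement, ← map_commutatorElement]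
    refine (QuotientGroup.eq_one_iff _).2 ?_
    rw [gam_succ, commutator_comm]
    exact commutator_mem_commutator (gam_le L i ha) h1

theorem gam_comm_le_tau {L W : Subgroup G} [L.Normal] (h : ⁅L, W⁆ ≤ tau L 0) :
    ∀ j, ⁅gam L j, W⁆ ≤ tau L j
  | 0 => h
  | j + 1 => by
    rw [gam_succ]
    refine three_subgroups ?_ ?_
    · refine (commutator_mono h le_rfl).trans ((tau_comm L 0 j).trans ?_)
      rw [zero_add]
    · rw [commutator_comm W]
      exact (commutator_mono (gam_comm_le_tau h j) le_rfl).trans (tau_comm L j 0)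

end Pool.Agent.P.MP_3540e7_al
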