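import Pool.Agent.P.MP_3540e7_al.Cfg

set_option autoImplicit false

namespace Pool.Agent.P.MP_3540e7_al

open Subgroup
open scoped commutatorElement

variable {G : Type*} [Group G] {Q : Type*} [Group Q]
variable {L N : Subgroup G} [L.Normal] [N.Normal] {c : ℕ}

omit [N.Normal] in
theorem Cfg.safe (h : Cfg L N c) (hL : ¬ Noeth L) {E : Set G} (hE : E.Finite) (hEL : E ⊆ L) :
    (centralizer E ⊔ N).FiniteIndex :=
  h.hSt E hE fun h1 => hL (noeth_of_centralizer h.hc hE hEL (h1.le inf_le_right))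

theorem Cfg.norm_M (h : Cfg L N c) (D : Subgroup G) :
    D ⊔ N ≤ normalizer (((D ⊓ N) ⊔ L : Subgroup G) : Set G) :=
  sup_le (le_normalizer_sup (le_normalizer_inf le_normalizer le_norm_top) le_norm_top)
    (le_normalizer_of_comm fun _ hg _ hj => mem_sup_right (h.hNN (commutator_mem_commutator hg
      ((sup_le inf_le_right h.hLN : (D ⊓ N) ⊔ L ≤ N) hj))))

theorem Cfg.orbit (h : Cfg L N c) (hL : ¬ Noeth L) {E : Set G} (hE : E.Finite) (hEL : E ⊆ L)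
    {y : G} (hy : y ∈ N) :
    (CN (centralizer E ⊔ N) _ (h.norm_M (centralizer E)) y).FiniteIndex := by
  have := h.safe hL (E := E ∪ (fun e => y⁻¹ * e * y) '' E) (hE.union (hE.image _)) (by
    rintro _ (he | ⟨e, he, rfl⟩)
    · exact hEL he
    · simpa using ‹L.Normal›.conj_mem e (hEL he) y⁻¹)
  refine finiteIndex_of_le (H := centralizer (E ∪ (fun e => y⁻¹ * e * y) '' E) ⊔ N)
    (sup_le (fun g hg => ?_) (fun g hg => ?_))
  · have hg1 : g ∈ centralizer E := centralizer_le Set.subset_union_left hg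
    refine ⟨mem_sup_left hg1, mem_sup_left ⟨?_, comm_mem_right hy g⟩⟩
    have hg2 : y * g⁻¹ * y⁻¹ ∈ centralizer E := by
      intro e he
      have := (inv_mem hg) _ (Or.inr ⟨e, he, rfl⟩)
      calc e * (y * g⁻¹ * y⁻¹) = y * (y⁻¹ * e * y * g⁻¹) * y⁻¹ := by group
        _ = y * (g⁻¹ * (y⁻¹ * e * y)) * y⁻¹ := by rw [this]
        _ = y * g⁻¹ * y⁻¹ * e := by group
    have := mul_mem hg1 hg2
    simpa [commutatorElement_def, mul_assoc] using this
  · exact ⟨mem_sup_right hg, mem_sup_right (h.hNN (commutator_mem_commutator hg hy))⟩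

theorem Cfg.rn_cent [Group.IsSolvable G] (h : Cfg L N c) (hL : ¬ Noeth L) {E : Set G}
    (hE : E.Finite) (hEL : E ⊆ L) : RN ((centralizer E ⊓ N) ⊔ L) N := by
  have := h.fg
  have := h.safe hL hE hEL
  exact rn_of_finite_orbits (H := centralizer E ⊔ N) h.hN (sup_le inf_le_right h.hLN)
    (h.hNN.trans le_sup_right) (h.norm_M _)
    (fun y hy => ⟨_, h.orbit hL hE hEL hy, fun g hg => hg.2⟩)

theorem Cfg.correction [Group.IsSolvable G] (h : Cfg L N c) (hL : ¬ Noeth L) {E : Set G}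
    (hE : E.Finite) (hEL : E ⊆ L) :
    ∃ E' : Set G, E'.Finite ∧ E' ⊆ L ∧ ∃ Ep : Set G, Ep.Finite ∧ Ep ⊆ L ∧
      ∀ w ∈ centralizer Ep ⊓ N, ∀ g, g⁻¹ * w * g ∈ centralizer E ⊔ normalClosure E' := by
  have := h.fg
  set D := centralizer E with hD
  set M := (D ⊓ N) ⊔ L with hM
  have hMN : M ≤ N := sup_le inf_le_right h.hLN
  obtain ⟨T, hT, hTN, hTM⟩ := (h.rn_cent hL hE hEL).fg hMN
  let U := ⨅ y ∈ T, CN (D ⊔ N) M (h.norm_M D) y
  have hU : U.FiniteIndex := finiteIndex_biInf hT fun y hy => h.orbit hL hE hEL (hTN hy)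
  let D0 := U ⊓ D
  have hD0 : D0.relIndex D ≠ 0 := by
    rw [inf_relIndex_right]
    exact FiniteIndex.index_ne_zero (H := U.subgroupOf D)
  have hD0M : ∀ d ∈ D0, ∀ n ∈ N, ⁅n, d⁆ ∈ M := by
    intro d hd
    have hd' : ∀ y ∈ T, ⁅d, y⁆ ∈ M := fun y hy => ((mem_iInf.1 (mem_iInf.1 hd.1 y)) hy).2
    have : N ≤ CN N M (le_sup_right.trans (h.norm_M D)) d := by
      conv_lhs => rw [← hTM]
      refine sup_le ((closure_le _).2 fun y hy => ⟨hTN hy, ?_⟩) fun m hm => ⟨hMN hm, ?_⟩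
      · rw [← commutatorElement_inv]; exact inv_mem (hd' y hy)
      · have := (mem_normalizer_iff.1 (h.norm_M D (mem_sup_left hd.2)) m⁻¹).1 (inv_mem hm)
        simpa [commutatorElement_def, mul_assoc] using mul_mem hm this
    exact fun n hn => (this hn).2
  have hDN : D ⊓ N ≤ D0 := by
    rintro d ⟨h1, h2⟩
    refine ⟨mem_iInf.2 fun y => mem_iInf.2 fun hy => ⟨mem_sup_left h1, ?_⟩, h1⟩
    exact mem_sup_right (h.hNN (commutator_mem_commutator h2 (hTN hy)))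
  have hG0 : (D0 ⊔ N).FiniteIndex := finiteIndex_sup_of_relIndex hD0 (h.safe hL hE hEL)
  obtain ⟨Δ, hΔ, hΔf⟩ := (fg_iff D0).1 (fg_of_relIndex (h.hC E hE) inf_le_right hD0)
  obtain ⟨Γ, hΓ, hΓf⟩ := (fg_iff _).1
    ((Group.fg_iff_subgroup_fg _).1 (Subgroup.fg_of_index_ne_zero (D0 ⊔ N)))
  have hconj : ∀ γ ∈ D0 ⊔ N, ∀ δ ∈ D0, ∃ l ∈ L, γ * δ * γ⁻¹ * l⁻¹ ∈ D0 := by
    intro γ hγ δ hδ
    obtain ⟨d, hd, n, hn, rfl⟩ := (mem_sup_norm le_norm_top).1 hγ
    have h1 : ⁅n, δ⁆ ∈ D0 ⊔ L := (sup_le_sup_right hDN L) (hD0M δ hδ n hn)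
    have h2 : d * n * δ * (d * n)⁻¹ ∈ D0 ⊔ L := by
      have : d * n * δ * (d * n)⁻¹ = d * ⁅n, δ⁆ * δ * d⁻¹ := by
        simp only [commutatorElement_def]; group
      rw [this]
      exact mul_mem (mul_mem (mul_mem (mem_sup_left hd) h1) (mem_sup_left hδ))
        (inv_mem (mem_sup_left hd))
    obtain ⟨d', hd', l, hl, h3⟩ := (mem_sup_norm le_norm_top).1 h2
    exact ⟨l, hl, by rw [← h3]; simpa using hd'⟩
  choose! lf hlf1 hlf2 using hconj
  have hΓ1 : ∀ γ ∈ Γ ∪ Γ⁻¹, γ ∈ D0 ⊔ N := by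
    rintro γ (hγ | hγ)
    · exact hΓ ▸ subset_closure hγ
    · exact inv_mem_iff.1 (hΓ ▸ subset_closure hγ)
  have hΔ1 : ∀ δ ∈ Δ, δ ∈ D0 := fun δ hδ => hΔ ▸ subset_closure hδ
  let E' := Set.image2 lf (Γ ∪ Γ⁻¹) Δ
  have hJ : ∀ γ ∈ Γ ∪ Γ⁻¹, ∀ j ∈ closure Δ ⊔ normalClosure E',
      γ * j * γ⁻¹ ∈ closure Δ ⊔ normalClosure E' := by
    intro γ hγ
    refine conj_mem_closure_sup le_sup_right fun δ hδ => ?_
    have := mul_mem_sup (hΔ ▸ hlf2 γ (hΓ1 γ hγ) δ (hΔ1 δ hδ))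
      (subset_normalClosure (s := E') ⟨γ, hγ, δ, hδ, rfl⟩)
    simpa using this
  have hJn : D0 ⊔ N ≤ normalizer ((closure Δ ⊔ normalClosure E' : Subgroup G) : Set G) := by
    rw [← hΓ]
    refine le_normalizer_of_gens (fun g hg => hJ g (Or.inl hg)) (fun g hg j hj => ?_)
    simpa using hJ g⁻¹ (Or.inr (by simpa using hg)) j hj
  obtain ⟨T₁, hT₁, h₁⟩ := finiteIndex_iff'.1 hG0
  refine ⟨E', (hΓf.union hΓf.inv).image2 _ hΔf, ?_,
    Set.image2 (fun t e => t * e * t⁻¹) T₁ E, hT₁.image2 _ hE, ?_, ?_⟩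
  · rintro _ ⟨γ, hγ, δ, hδ, rfl⟩
    exact hlf1 γ (hΓ1 γ hγ) δ (hΔ1 δ hδ)
  · rintro _ ⟨t, -, e, he, rfl⟩
    exact ‹L.Normal›.conj_mem e (hEL he) t
  · rintro w ⟨hw1, hw2⟩ g
    obtain ⟨t, ht, hg⟩ := h₁ g
    have h2 : t⁻¹ * w * t ∈ D0 := by
      refine hDN ⟨fun e he => ?_, by simpa using ‹N.Normal›.conj_mem w hw2 t⁻¹⟩
      have := hw1 _ ⟨t, ht, e, he, rfl⟩
      calc e * (t⁻¹ * w * t) = t⁻¹ * (t * e * t⁻¹ * w) * t := by group
        _ = t⁻¹ * (w * (t * e * t⁻¹)) * t := by rw [this]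
        _ = t⁻¹ * w * t * e := by group
    have h3 := (mem_normalizer_iff.1 (hJn (inv_mem hg)) _).1 (mem_sup_left (hΔ ▸ h2))
    have h4 : closure Δ ⊔ normalClosure E' ≤ D ⊔ normalClosure E' :=
      sup_le_sup_right (hΔ ▸ inf_le_right) _
    convert h4 h3 using 1
    group

theorem Cfg.correction' [Group.IsSolvable G] (h : Cfg L N c) (hL : ¬ Noeth L)
    (E : {E : Set G // E.Finite ∧ E ⊆ L}) :
    ∃ E₁ Ep : {E : Set G // E.Finite ∧ E ⊆ L}, E.1 ⊆ E₁.1 ∧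
      ∀ w ∈ centralizer Ep.1 ⊓ N, ∀ r ∈ normalClosure E.1, ⁅r, w⁆ ∈ gam (normalClosure E₁.1) 1 := by
  obtain ⟨E', hE', hE'L, Ep, hEp, hEpL, h1⟩ := h.correction hL E.2.1 E.2.2
  refine ⟨⟨E.1 ∪ E', E.2.1.union hE', Set.union_subset E.2.2 hE'L⟩, ⟨Ep, hEp, hEpL⟩,
    Set.subset_union_left, fun w hw => ?_⟩
  set B := gam (normalClosure (E.1 ∪ E')) 1
  have : normalClosure E.1 ≤ CM B w := by
    rw [normalClosure, closure_le]
    intro z hz
    obtain ⟨e, he, hz⟩ := Group.mem_conjugatesOfSet_iff.1 hz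
    obtain ⟨g, rfl⟩ := isConj_iff.1 hz
    obtain ⟨d, hd, r, hr, h2⟩ := (mem_sup_norm le_norm_top).1 (h1 w hw g)
    have h3 : ⁅r, e⁆ ∈ B := commutator_mem_commutator
      (normalClosure_mono Set.subset_union_right hr) (subset_normalClosure (Or.inl he))
    have h4 : ⁅d, e⁆ = 1 := commutatorElement_eq_one_iff_mul_comm.2 (hd e he).symm
    have h5 : ⁅w, g * e * g⁻¹⁆ = g * ⁅g⁻¹ * w * g, e⁆ * g⁻¹ := by
      simp only [commutatorElement_def]; group
    rw [SetLike.mem_coe, mem_CM, h5, ← h2, commutatorElement_mul_left_eq_conj_mul, h4, mul_one]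
    exact (gam_normal _ 1).conj_mem _ ((gam_normal _ 1).conj_mem _ h3 d) g
  exact fun r hr => mem_CM'.1 (this hr)

/-- finite subsets of `L` have noetherian normal closure -/
theorem Cfg.locally_noeth [Group.IsSolvable G] (h : Cfg L N c) {E : Set G}
    (hE : E.Finite) (hEL : E ⊆ L) : Noeth (normalClosure E) := by
  by_cases hL : Noeth L
  · exact hL.le (normalClosure_le_normal hEL)
  choose nx pl h1 h2 using h.correction' hL
  let e : ℕ → {E : Set G // E.Finite ∧ E ⊆ L} := fun n => nx^[n] ⟨E, hE, hEL⟩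
  have he : ∀ n, e (n + 1) = nx (e n) := fun n => Function.iterate_succ_apply' nx n _
  let Ep := ⋃ i ∈ Set.Iio c, (pl (e i)).1
  have hEp : Ep.Finite := (Set.finite_Iio c).biUnion fun i _ => (pl (e i)).2.1
  have hEpL : Ep ⊆ L := Set.iUnion₂_subset fun i _ => (pl (e i)).2.2
  obtain ⟨w, hw, hk⟩ := h.exists_killer' inf_le_right (h.rn_cent hL hEp hEpL)
  have hRL : ∀ j, normalClosure (e j).1 ≤ L := fun j => normalClosure_le_normal (e j).2.2
  refine noeth_chain h.hc (Set.finite_singleton w) ((h.noeth_killer hk).le inf_le_right)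
    (fun j => gam (normalClosure (e j).1) j) (fun j => (gam_le _ j).trans (hRL j)) (m := c)
    (eq_bot_iff.2 (h.hc ▸ gam_mono (hRL c) c)) ?_
  intro j hj w' hw' y hy
  rw [Set.mem_singleton_iff.1 hw']
  have h3 : ⁅normalClosure (e j).1, CMs (gam (normalClosure (e (j + 1)).1) 1)
      (normalClosure (e j).1)⁆ ≤ gam (normalClosure (e (j + 1)).1) 1 :=
    commutator_le.2 fun r hr g hg => mem_CMs.1 hg r hr
  have h4 := gam_step (normalClosure_mono (by rw [he]; exact h1 _)) h3 j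
  rw [← commutatorElement_inv]
  refine inv_mem (h4 (commutator_mem_commutator hy (mem_CMs.2 ?_)))
  rw [he]
  have h5 : (pl (e j)).1 ⊆ Ep :=
    Set.subset_biUnion_of_mem (u := fun i => (pl (e i)).1) (Set.mem_Iio.2 hj)
  exact h2 (e j) w ⟨centralizer_le h5 hw.1, hw.2⟩

end Pool.Agent.P.MP_3540e7_al
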