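import Pool.Agent.P.MP_3540e7_al.Delta

set_option autoImplicit false

namespace Pool.Agent.P.MP_3540e7_al

open Subgroup
open scoped commutatorElement

variable {G : Type*} [Group G] {Q : Type*} [Group Q]

theorem finite_of_fg_torsion {H : Subgroup G} (hc : ∀ a ∈ H, ∀ b ∈ H, a * b = b * a) (h : H.FG)
    (ht : ∀ a ∈ H, ∃ m, m ≠ 0 ∧ a ^ m = 1) : Finite H := by
  let : CommGroup H := { (inferInstance : Group H) with
    mul_comm := fun a b => Subtype.ext (hc a.1 a.2 b.1 b.2) }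
  have : Group.FG H := (Group.fg_iff_subgroup_fg H).2 h
  refine CommGroup.finite_of_fg_isMulTorsion H fun a => ?_
  obtain ⟨m, hm, h1⟩ := ht a.1 a.2
  exact isOfFinOrder_iff_pow_eq_one.2 ⟨m, Nat.pos_of_ne_zero hm, Subtype.ext h1⟩

theorem relIndex_ne_zero_of_bounded {P A : Subgroup G} (k : ℕ)
    (h : ∀ E : Set G, E.Finite → E ⊆ A →
      ∃ F : Subgroup G, E ⊆ F ∧ F ≤ A ∧ P.relIndex F ≠ 0 ∧ P.relIndex F ≤ k) :
    P.relIndex A ≠ 0 := by
  intro h0
  have : Infinite (A ⧸ P.subgroupOf A) := by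
    rcases Nat.card_eq_zero.1 h0 with h1 | h1
    · exact absurd h1 (not_isEmpty_of_nonempty _)
    · exact h1
  obtain ⟨s, hs⟩ := Infinite.exists_subset_card_eq (A ⧸ P.subgroupOf A) (k + 1)
  obtain ⟨F, hF, hFA, h1, h2⟩ := h ((fun q : A ⧸ P.subgroupOf A => (q.out : G)) '' s)
    (s.finite_toSet.image _) (by rintro _ ⟨q, -, rfl⟩; exact q.out.2)
  have : Finite (F ⧸ P.subgroupOf F) := Nat.finite_of_card_ne_zero h1
  have h3 := Nat.card_le_card_of_injective (fun q : s =>
    (QuotientGroup.mk ⟨(q.1.out : G), hF ⟨q.1, q.2, rfl⟩⟩ : F ⧸ P.subgroupOf F)) (by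
      intro q q' hq
      have h4 := QuotientGroup.eq.1 hq
      apply Subtype.ext
      rw [← QuotientGroup.out_eq' q.1, ← QuotientGroup.out_eq' q'.1]
      exact QuotientGroup.eq.2 h4)
  rw [Nat.card_eq_fintype_card (α := s), Fintype.card_coe, hs] at h3
  have : P.relIndex F = Nat.card (F ⧸ P.subgroupOf F) := rfl
  omega

/-- the commutator map with `x` on an abelian normal subgroup -/
def cmap (A : Subgroup G) [A.Normal] (hc : ∀ a ∈ A, ∀ b ∈ A, a * b = b * a) (x : G)
    (F : Subgroup G) (hF : F ≤ A) : F →* G :=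
  MonoidHom.mk' (fun a => ⁅x, a.1⁆) (by
    intro a b
    rw [Subgroup.coe_mul, commutatorElement_mul_right_eq_mul_conj, mul_assoc, mul_assoc,
      ← hc _ (hF (inv_mem a.2)) _ (comm_mem_right (hF b.2) x), mul_inv_cancel_left])

theorem step_torsion {A : Subgroup G} [A.Normal] (hc : ∀ a ∈ A, ∀ b ∈ A, a * b = b * a)
    (hfin : ∀ E : Set G, E.Finite → E ⊆ A → Finite (normalClosure E)) {x : G}
    (hx : Noeth (centralizer {x})) : RN A (CM A x) := by
  have hfx : Finite (A ⊓ centralizer {x} : Subgroup G) := by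
    obtain ⟨S, hS, hSf⟩ := (fg_iff _).1 (hx.le (inf_le_right (a := A))).fg
    have := hfin S hSf (fun s hs => (hS ▸ subset_closure hs : s ∈ A ⊓ centralizer {x}).1)
    exact Finite.of_injective _ (inclusion_injective (hS ▸ closure_le_normalClosure))
  set P := (cmap A hc x A le_rfl).range
  have hP : P.relIndex A ≠ 0 := by
    refine relIndex_ne_zero_of_bounded (Nat.card (A ⊓ centralizer {x} : Subgroup G))
      fun E hE hEA => ?_
    have := hfin E hE hEA
    have hFA : normalClosure E ≤ A := normalClosure_le_normal hEA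
    set F := normalClosure E
    let ψ := cmap A hc x F hFA
    have h1 : ψ.range ≤ F := by rintro _ ⟨a, rfl⟩; exact comm_mem_right a.2 x
    have h2 : ψ.range ≤ P := by rintro _ ⟨a, rfl⟩; exact ⟨⟨a.1, hFA a.2⟩, rfl⟩
    have h3 := relIndex_mul_relIndex ⊥ ψ.range F bot_le h1
    have h4 := ψ.ker.card_mul_index
    rw [relIndex_bot_left, relIndex_bot_left, ← h4, index_ker, mul_comm] at h3
    have : Finite ψ.range := Finite.of_injective _ (inclusion_injective h1)
    have h5 := Nat.eq_of_mul_eq_mul_right Nat.card_pos h3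
    have h6 : Nat.card ψ.ker ≤ Nat.card (A ⊓ centralizer {x} : Subgroup G) := by
      refine Nat.card_le_card_of_injective (fun a => ⟨a.1.1, hFA a.1.2, ?_⟩) ?_
      · exact mem_centralizer_singleton_iff.2 (commutatorElement_eq_one_iff_mul_comm.1 a.2).symm
      · intro a b hab
        exact Subtype.ext (Subtype.ext (Subtype.mk.inj hab))
    have h7 : ψ.range.relIndex F ≠ 0 := h5 ▸ Nat.card_pos.ne'
    exact ⟨F, subset_normalClosure, hFA, fun h0 => h7 (relIndex_eq_zero_of_le_left h2 h0),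
      (relIndex_le_of_le_left h2 h7).trans (h5 ▸ h6)⟩
  obtain ⟨T, hT, -, hT'⟩ := relIndex_ne_zero_iff.1 hP
  have : ∀ t, (∃ g ∈ CM A x, t⁻¹ * ⁅x, g⁆ ∈ P) → ∃ g ∈ CM A x, t⁻¹ * ⁅x, g⁆ ∈ P := fun _ h => h
  choose! u hu1 hu2 using this
  refine hx.rn_sup.finiteIndex le_sup_right (relIndex_ne_zero_iff.2
    ⟨u '' {t ∈ T | ∃ g ∈ CM A x, t⁻¹ * ⁅x, g⁆ ∈ P}, (hT.subset fun _ h => h.1).image _, ?_, ?_⟩)
  · rintro _ ⟨t, ht, rfl⟩; exact hu1 t ht.2
  · intro g hg
    obtain ⟨t, ht, h1⟩ := hT' _ (mem_CM.1 hg)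
    have h2 : ∃ g ∈ CM A x, t⁻¹ * ⁅x, g⁆ ∈ P := ⟨g, hg, h1⟩
    refine ⟨_, ⟨t, ⟨ht, h2⟩, rfl⟩, ?_⟩
    obtain ⟨a, ha⟩ := mul_mem (inv_mem (hu2 t h2)) h1
    set v := u t
    have hv : ⁅x, v⁆ ∈ A := mem_CM.1 (hu1 t h2)
    have ha' : ⁅x, a.1⁆ = (t⁻¹ * ⁅x, v⁆)⁻¹ * (t⁻¹ * ⁅x, g⁆) := ha
    have h3 : ⁅x, a.1 * v⁆ = ⁅x, g⁆ := by
      rw [commutatorElement_mul_right_eq_mul_conj, mul_assoc, mul_assoc,
        ← hc _ (inv_mem a.2) _ hv, mul_inv_cancel_left, hc _ (comm_mem_right a.2 x) _ hv, ha']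
      group
    have h4 : (a.1 * v)⁻¹ * g ∈ centralizer {x} := by
      rw [mem_centralizer_singleton_iff]
      simp only [commutatorElement_def] at h3
      set b := a.1 * v
      calc b⁻¹ * g * x = b⁻¹ * (x * g * x⁻¹ * g⁻¹)⁻¹ * x * g := by group
        _ = b⁻¹ * (x * b * x⁻¹ * b⁻¹)⁻¹ * x * g := by rw [h3]
        _ = x * (b⁻¹ * g) := by group
    have h5 : v⁻¹ * g = (v⁻¹ * a.1 * v⁻¹⁻¹) * ((a.1 * v)⁻¹ * g) := by group
    rw [h5]
    exact mul_mem (mem_sup_right (‹A.Normal›.conj_mem _ a.2 _)) (mem_sup_left h4)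

theorem exists_lift (f : G →* Q) {A : Subgroup G} {E : Set Q} (hE : E.Finite)
    (hEA : E ⊆ A.map f) : ∃ E₀ : Set G, E₀.Finite ∧ E₀ ⊆ A ∧ f '' E₀ = E := by
  obtain ⟨E₀, h1, h2, h3⟩ := Set.Finite.exists_subset_finite_image_eq (s := (A : Set G)) hE hEA
  exact ⟨E₀, h2, h1, h3⟩

variable {L N : Subgroup G} [L.Normal] [N.Normal] {c : ℕ}

theorem Cfg.step_one [Group.IsSolvable G] (h : Cfg L N c) (j : ℕ) {x : G}
    (hx : RN (gam L (j + 1)) (CM (gam L (j + 1)) x)) : RN (tau L j) (CM (tau L j) x) := by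
  set B := gam L (j + 1)
  let π := QuotientGroup.mk' B
  have hπ : Function.Surjective π := QuotientGroup.mk'_surjective B
  have hx' : Noeth (centralizer {π x}) := by
    have := (rn_iff_map (le_CM B x)).1 hx
    rwa [CM, map_comap_eq_self_of_surjective hπ] at this
  have : ((tau L j).map π).Normal := Normal.map inferInstance π hπ
  have hc : ∀ a ∈ (tau L j).map π, ∀ b ∈ (tau L j).map π, a * b = b * a := by
    rintro _ ⟨a, ha, rfl⟩ _ ⟨b, hb, rfl⟩
    rw [← commutatorElement_eq_one_iff_mul_comm, ← map_commutatorElement]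
    exact (QuotientGroup.eq_one_iff _).2 (commutator_mem_commutator ha.1 (gam_le L j hb.1))
  have h1 := step_torsion hc (fun E hE hEA => by
    obtain ⟨E₀, h1, h2, rfl⟩ := exists_lift π hE hEA
    have h3 : normalClosure (π '' E₀) ≤ (tau L j).map π := normalClosure_le_normal hEA
    refine finite_of_fg_torsion (fun a ha b hb => hc a (h3 ha) b (h3 hb)) ?_ ?_
    · rw [← map_normalClosure _ _ hπ]
      exact ((h.locally_noeth h1 (h2.trans ((tau_le L j).trans (gam_le L j)))).map π).fg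
    · intro a ha
      obtain ⟨a, ⟨-, m, hm, ha'⟩, rfl⟩ := h3 ha
      exact ⟨m, hm, by rw [← map_pow]; exact (QuotientGroup.eq_one_iff _).2 ha'⟩) hx'
  have h2 := h1.comap π (map_le_range π _)
  rw [comap_map_eq_self (by rw [QuotientGroup.ker_mk']; exact le_tau L j)] at h2
  refine h2.mono le_rfl fun g hg => ?_
  rw [mem_comap, mem_CM, ← map_commutatorElement]
  exact ⟨_, mem_CM.1 hg, rfl⟩

theorem CMs_normal (B A : Subgroup G) [hB : B.Normal] [hA : A.Normal] : (CMs B A).Normal where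
  conj_mem := by
    intro n hn g
    rw [mem_CMs] at hn ⊢
    intro a ha
    have : ⁅a, g * n * g⁻¹⁆ = g * ⁅g⁻¹ * a * g⁻¹⁻¹, n⁆ * g⁻¹ := by
      simp only [commutatorElement_def]; group
    rw [this]
    exact hB.conj_mem _ (hn _ (hA.conj_mem a ha _)) g

theorem Cfg.descent [Group.IsSolvable G] (h : Cfg L N c) (hV : RN (N ⊓ CMs (tau L 0) L) N) :
    False := by
  have := CMs_normal (tau L 0) L
  set V := N ⊓ CMs (tau L 0) L
  have hVt : RN V ⊤ := hV.trans' h.hN inf_le_left le_top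
  have hVc : ∀ j, ⁅gam L j, V⁆ ≤ tau L j :=
    gam_comm_le_tau (commutator_le.2 fun l hl v hv => mem_CMs.1 hv.2 l hl)
  obtain ⟨w, hw, hwk⟩ := h.exists_killer inf_le_left hV
  have key : ∀ i, i ≤ c → ∀ x, Killer L N x → RN (gam L (c - i)) (CM (gam L (c - i)) x) := by
    intro i
    induction i with
    | zero =>
      intro _ x hx
      refine (h.noeth_killer hx).mono bot_le fun g hg => ?_
      rw [mem_CM, Nat.sub_zero, h.hc] at hg
      exact mem_centralizer_singleton_iff.2 (commutatorElement_eq_one_iff_mul_comm.1 hg).symm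
    | succ i ih =>
      intro hi x hx
      have ih := ih (by omega)
      have e : c - i = (c - (i + 1)) + 1 := by omega
      set j := c - (i + 1)
      simp only [e] at ih
      have h1 : RN (tau L j) (gam L j) := (h.step_one j (ih w hwk)).mono le_rfl
        fun g hg => mem_CM'.2 (hVc j (commutator_mem_commutator hg hw))
      obtain ⟨h2, h3⟩ := rn_CMs (B := tau L j) (Z := gam L j) (X := V ⊓ CM (gam L j) x)
        ((rn_iff_map (tau_le L j)).1 h1)
        (fun g hg z hz => by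
          rw [← commutatorElement_inv]
          exact inv_mem (hVc j (commutator_mem_commutator hz hg.1))) {x} (Set.finite_singleton x)
        (fun f hf g hg => by rw [Set.mem_singleton_iff.1 hf]; exact mem_CM.1 hg.2)
      have hLV : L ≤ V := le_inf h.hLN fun l hl => mem_CMs.2 fun l' hl' =>
        le_tau L 0 (commutator_mem_commutator hl' hl)
      have h4 : tau L j ≤ V ⊓ CM (gam L j) x :=
        (tau_le L j).trans (le_inf ((gam_le L j).trans hLV) (le_CM _ x))
      have h5 : RN (tau L j) (V ⊓ CM (gam L j) x) := by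
        refine RN.trans ((h.step_one j (ih x hx)).mono le_rfl ?_) h2 (le_inf h4 ?_) inf_le_left h3
        · exact fun g hg => mem_CM.2 (mem_CMs.1 hg.2 x rfl)
        · exact fun g hg => mem_CMs.2 fun f _ => comm_mem_right hg f
      have h6 := hVt.inf_right' (CM (gam L j) x) le_top
      rw [top_inf_eq] at h6
      exact (h5.trans h6 h4 inf_le_right (le_normalizer_inf le_norm_top le_normalizer)).mono
        (tau_le L j) le_rfl
  have := key c le_rfl w hwk
  simp only [Nat.sub_self] at this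
  exact h.hn (this.mono le_rfl (h.N_le_CM hwk.1))

end Pool.Agent.P.MP_3540e7_al
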