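import Pool.Agent.P.MP_3540e7_al.FP

set_option autoImplicit false

namespace Pool.Agent.P.MP_3540e7_al

open Subgroup NumberField
open scoped commutatorElement nonZeroDivisors

variable {G : Type*} [Group G] {Q : Type*} [Group Q]

theorem Noeth.of_injective {f : G →* Q} (hf : Function.Injective f) (h : Noeth (⊤ : Subgroup Q)) :
    Noeth (⊤ : Subgroup G) := by
  refine Noeth.of_map f ?_ (h.le le_top)
  rw [(MonoidHom.ker_eq_bot_iff f).2 hf, bot_inf_eq]
  exact RN.of_le le_rfl

theorem noeth_units_aux (D K : Type*) [CommRing D] [IsDomain D] [Module.Finite ℤ D] [CharZero D]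
    [Field K] [CharZero K] [Algebra D K] [IsFractionRing D K] : Noeth (⊤ : Subgroup Dˣ) := by
  have : FiniteDimensional ℚ K := .of_isLocalization ℤ D ℤ⁰
  have : NumberField K := {}
  let f : D →ₐ[ℤ] 𝓞 K := IsIntegralClosure.lift ℤ (𝓞 K) K
  have hf : Function.Injective f := by
    intro a b hab
    apply IsFractionRing.injective D K
    rw [← IsIntegralClosure.algebraMap_lift ℤ (𝓞 K) K a,
      ← IsIntegralClosure.algebraMap_lift ℤ (𝓞 K) K b]
    exact congrArg _ hab
  have : Group.FG (𝓞 K)ˣ := Group.fg_iff_monoid_fg.2 inferInstance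
  exact Noeth.of_injective (Units.map_injective (f := f.toRingHom.toMonoidHom) hf)
    noeth_top_of_comm

theorem noeth_units_domain (D : Type*) [CommRing D] [IsDomain D] [Module.Finite ℤ D] :
    Noeth (⊤ : Subgroup Dˣ) := by
  obtain ⟨p, hp⟩ := CharP.exists D
  rcases CharP.char_is_prime_or_zero D p with hp' | rfl
  · have : Finite D := by
      refine Module.finite_of_fg_torsion D fun x => ⟨⟨(p : ℤ), ?_⟩, ?_⟩
      · exact mem_nonZeroDivisors_of_ne_zero (by exact_mod_cast hp'.ne_zero)
      · simp [Submonoid.smul_def]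
    exact Noeth.of_finite inferInstance
  · have : CharZero D := CharP.charP_to_charZero D
    exact noeth_units_aux D (FractionRing D)

/-- units congruent to one modulo an ideal -/
def oneMod {R : Type*} [CommRing R] (I : Ideal R) : Subgroup Rˣ :=
  (Units.map (Ideal.Quotient.mk I).toMonoidHom).ker

theorem mem_oneMod {R : Type*} [CommRing R] {I : Ideal R} {u : Rˣ} :
    u ∈ oneMod I ↔ (u : R) - 1 ∈ I := by
  rw [oneMod, MonoidHom.mem_ker, Units.ext_iff, ← Ideal.Quotient.eq]
  simp

theorem noeth_units (R : Type*) [CommRing R] [Module.Finite ℤ R] : Noeth (⊤ : Subgroup Rˣ) := by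
  have : IsNoetherianRing R := isNoetherian_of_tower ℤ inferInstance
  have key : ∀ I : Ideal R, RN (oneMod I) ⊤ := by
    intro I
    induction I using IsNoetherian.induction with
    | hgt I ih =>
      by_cases hI : I = ⊤
      · exact RN.of_le fun u _ => mem_oneMod.2 (hI ▸ Submodule.mem_top)
      by_cases hP : Ideal.IsPrime I
      · have := RN.ker_inf (Units.map (Ideal.Quotient.mk I).toMonoidHom) (H := ⊤)
          ((noeth_units_domain (R ⧸ I)).le le_top)
        rwa [inf_top_eq] at this
      obtain ⟨a, ha, b, hb, hab⟩ := (Ideal.not_isPrime_iff.1 hP).resolve_left hI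
      have hlt : ∀ x ∉ I, I < I ⊔ Ideal.span {x} := fun x hx =>
        lt_of_le_of_ne le_sup_left fun h => hx (h ▸ Ideal.mem_sup_right (Ideal.subset_span rfl))
      have h1 := (ih _ (hlt a ha)).inf (ih _ (hlt b hb)) le_top le_top
        (by rw [normalizer_eq_top]) (by rw [normalizer_eq_top])
      set W := oneMod (I ⊔ Ideal.span {a}) ⊓ oneMod (I ⊔ Ideal.span {b})
      have hW : ∀ u ∈ W, ∀ v ∈ W, ((u : R) - 1) * ((v : R) - 1) ∈ I := by
        intro u hu v hv
        obtain ⟨i, hi, x, hx, hu⟩ := Submodule.mem_sup.1 (mem_oneMod.1 hu.1)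
        obtain ⟨j, hj, y, hy, hv⟩ := Submodule.mem_sup.1 (mem_oneMod.1 hv.2)
        obtain ⟨x, rfl⟩ := Ideal.mem_span_singleton'.1 hx
        obtain ⟨y, rfl⟩ := Ideal.mem_span_singleton'.1 hy
        rw [← hu, ← hv, show (i + x * a) * (j + y * b) = i * (j + y * b) + (x * a) * j
          + (x * y) * (a * b) by ring]
        exact I.add_mem (I.add_mem (Ideal.mul_mem_right _ I hi) (Ideal.mul_mem_left I _ hj))
          (Ideal.mul_mem_left I _ hab)
      let φ : W →* Multiplicative (R ⧸ I) := MonoidHom.mk'
        (fun u => Multiplicative.ofAdd (Ideal.Quotient.mk I ((u.1 : R) - 1))) (by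
          intro u v
          rw [← ofAdd_add, ← map_add]
          congr 1
          rw [Ideal.Quotient.eq]
          convert hW u.1 u.2 v.1 v.2 using 1
          simp only [Subgroup.coe_mul, Units.val_mul]
          ring)
      have : Group.FG (Multiplicative (R ⧸ I)) := by
        have : AddGroup.FG (R ⧸ I) := Module.Finite.iff_addGroup_fg.1 inferInstance
        infer_instance
      have h2 := rn_ker φ (noeth_top_of_comm.le le_top)
      refine RN.trans' (h2.mono ?_ le_rfl) h1 ?_ le_top
      · rintro _ ⟨u, hu, rfl⟩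
        exact mem_oneMod.2 (Ideal.Quotient.eq_zero_iff_mem.1 hu)
      · intro u hu
        exact ⟨mem_oneMod.2 (Ideal.mem_sup_left (mem_oneMod.1 hu)),
          mem_oneMod.2 (Ideal.mem_sup_left (mem_oneMod.1 hu))⟩
  refine (key ⊥).mono (fun u hu => ?_) le_rfl
  rw [mem_oneMod, Ideal.mem_bot, sub_eq_zero] at hu
  exact mem_bot.2 (Units.ext hu)

/-- an abelian group of automorphisms of a finitely generated abelian group is noetherian -/
theorem rn_centralizer_of_fg {A N : Subgroup G} [A.Normal] (hA : A.FG)
    (hc : ∀ a ∈ A, ∀ b ∈ A, a * b = b * a) (hN : ⁅N, N⁆ ≤ centralizer (A : Set G)) :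
    RN (N ⊓ centralizer (A : Set G)) N := by
  let : CommGroup A := { (inferInstance : Group A) with
    mul_comm := fun a b => Subtype.ext (hc a.1 a.2 b.1 b.2) }
  have : Group.FG A := (Group.fg_iff_subgroup_fg A).2 hA
  have : Module.Finite ℤ (Additive A) := Module.Finite.iff_addGroup_fg.2 inferInstance
  let ρ : G →* Module.End ℤ (Additive A) :=
    { toFun := fun g => (MonoidHom.toAdditive (MulAut.conjNormal g : MulAut A).toMonoidHom).toIntLinearMap
      map_one' := by ext a; simp
      map_mul' := by intro g h; ext a; simp }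
  have hρ : ∀ g, ρ g = 1 ↔ g ∈ centralizer (A : Set G) := by
    intro g
    constructor
    · intro h a ha
      have := congrArg (fun φ : Module.End ℤ (Additive A) =>
        ((Additive.toMul (φ (Additive.ofMul ⟨a, ha⟩)) : A) : G)) h
      simp only [ρ] at this
      have h2 : g * a * g⁻¹ = a := this
      rw [mul_inv_eq_iff_eq_mul] at h2
      exact h2.symm
    · intro h
      ext a
      change g * (Additive.toMul a : A) * g⁻¹ = (Additive.toMul a : A)
      rw [← h _ (Additive.toMul a).2, mul_inv_cancel_right]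
  have hcomm : ∀ x ∈ ρ '' N, ∀ y ∈ ρ '' N, x * y = y * x := by
    rintro _ ⟨x, hx, rfl⟩ _ ⟨y, hy, rfl⟩
    have h1 := (hρ _).2 (hN (commutator_mem_commutator hx hy))
    have h2 : x * y = ⁅x, y⁆ * (y * x) := by simp only [commutatorElement_def]; group
    rw [← map_mul, h2, map_mul, h1, one_mul, map_mul]
  let R := Algebra.adjoin ℤ (ρ '' N)
  have hR := Algebra.isMulCommutative_adjoin ℤ hcomm
  let : CommRing R := { (inferInstance : Ring R) with mul_comm := hR.is_comm.comm }
  have : Module.Finite ℤ R := Module.Finite.of_injective R.val.toLinearMap Subtype.val_injective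
  let ψ : N →* R := (ρ.comp N.subtype).codRestrict R
    (fun n => Algebra.subset_adjoin ⟨n.1, n.2, rfl⟩)
  refine (rn_ker ψ.toHomUnits ((noeth_units R).le le_top)).mono ?_ le_rfl
  rintro _ ⟨n, hn, rfl⟩
  refine ⟨n.2, (hρ _).1 ?_⟩
  exact congrArg (fun u : Rˣ => ((u : R) : Module.End ℤ (Additive A))) hn

end Pool.Agent.P.MP_3540e7_al
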