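import Pool.Agent.P.MP_3540e7_al.Comm

set_option autoImplicit false

namespace Pool.Agent.P.MP_3540e7_al

open Subgroup
open scoped commutatorElement

variable {G : Type*} [Group G] {Q : Type*} [Group Q]

theorem rn_of_fg_comm' {M K : Subgroup G} (hM : M ≤ K) (hc : ⁅K, K⁆ ≤ M) {T : Set G}
    (hT : T.Finite) (hTK : T ⊆ K) (h : K ≤ closure T ⊔ M) : RN M K := by
  have hn : (M.subgroupOf K).Normal := by
    refine Normal.of_commutator_le K ?_
    rw [_root_.commutator_def, commutator_le]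
    intro a _ b _
    exact hc (commutator_mem_commutator a.2 b.2)
  have h1 := rn_of_fg_comm (K := M.subgroupOf K) (S := K.subtype ⁻¹' T)
    (hT.preimage K.subtype_injective.injOn)
    (fun a _ b _ => hc (commutator_mem_commutator a.2 b.2))
  have h2 := h1.map K.subtype le_sup_right
  rw [Subgroup.map_sup, MonoidHom.map_closure, map_subgroupOf_eq_of_le hM,
    Set.image_preimage_eq_of_subset (fun t ht => ⟨⟨t, hTK ht⟩, rfl⟩)] at h2
  exact h2.mono le_rfl h

theorem le_normalizer_of_gens {S : Set G} {J : Subgroup G}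
    (h1 : ∀ g ∈ S, ∀ j ∈ J, g * j * g⁻¹ ∈ J) (h2 : ∀ g ∈ S, ∀ j ∈ J, g⁻¹ * j * g ∈ J) :
    closure S ≤ normalizer (J : Set G) := by
  rw [Subgroup.closure_le]
  intro g hg
  rw [SetLike.mem_coe, mem_normalizer_iff]
  intro j
  refine ⟨h1 g hg j, fun hj => ?_⟩
  simpa [mul_assoc] using h2 g hg _ hj

theorem conj_mem_closure_sup {S : Set G} {R J : Subgroup G} [hR : R.Normal] (hRJ : R ≤ J) {g : G}
    (h : ∀ s ∈ S, g * s * g⁻¹ ∈ J) : ∀ j ∈ closure S ⊔ R, g * j * g⁻¹ ∈ J := by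
  have : closure S ⊔ R ≤ J.comap (MulAut.conj g).toMonoidHom :=
    sup_le ((Subgroup.closure_le _).2 fun s hs => h s hs) (fun r hr => hRJ (hR.conj_mem r hr g))
  exact fun j hj => this hj

theorem fp_step [hG : Group.FG G] {M M' : Subgroup G} [M.Normal] [M'.Normal] (hM : M' ≤ M)
    (hc : ⁅M, M⁆ ≤ M') (hr : RN M' M) {X : Set G} (hX : X.Finite) (hXM : normalClosure X = M) :
    ∃ S : Set G, S.Finite ∧ normalClosure S = M' := by
  obtain ⟨Γ, hΓ, hΓf⟩ := Group.fg_iff.1 hG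
  obtain ⟨m, hm, hmM, hmM'⟩ := hr.fg hM
  have dec : ∀ x ∈ M, ∃ r ∈ M', x * r⁻¹ ∈ closure m := by
    intro x hx
    rw [← hmM'] at hx
    obtain ⟨u, hu, r, hr, rfl⟩ := (mem_sup_norm (by rw [normalizer_eq_top]; exact le_top)).1 hx
    exact ⟨r, hr, by simpa using hu⟩
  choose! r hr1 hr2 using dec
  let Y : Set G := X ∪ Set.image2 (fun g a => g * a * g⁻¹) (Γ ∪ Γ⁻¹) m
  have hY : Y.Finite := hX.union ((hΓf.union hΓf.inv).image2 _ hm)
  have hYM : Y ⊆ M := by
    rintro y (hy | ⟨g, -, a, ha, rfl⟩)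
    · exact hXM ▸ subset_normalClosure hy
    · exact ‹M.Normal›.conj_mem a (hmM ha) g
  let S₀ : Set G := r '' Y ∪ Set.image2 (fun a b => ⁅a, b⁆) m m
  have hS₀ : S₀.Finite := (hY.image _).union (hm.image2 _ hm)
  have hS₀M : normalClosure S₀ ≤ M' := by
    refine normalClosure_le_normal ?_
    rintro _ (⟨y, hy, rfl⟩ | ⟨a, ha, b, hb, rfl⟩)
    · exact hr1 y (hYM hy)
    · exact hc (commutator_mem_commutator (hmM ha) (hmM hb))
  set K₀ := normalClosure S₀
  have hYJ : ∀ y ∈ Y, y ∈ closure m ⊔ K₀ := by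
    intro y hy
    have := mul_mem_sup (hr2 y (hYM hy)) (subset_normalClosure (s := S₀) (Or.inl ⟨y, hy, rfl⟩))
    simpa using this
  have hJn : (closure m ⊔ K₀).Normal := by
    rw [← normalizer_eq_top_iff, eq_top_iff, ← hΓ]
    refine le_normalizer_of_gens (fun g hg => conj_mem_closure_sup le_sup_right fun a ha => ?_)
      (fun g hg j hj => ?_)
    · exact hYJ _ (Or.inr ⟨g, Or.inl hg, a, ha, rfl⟩)
    · have := conj_mem_closure_sup (g := g⁻¹) (J := closure m ⊔ K₀) le_sup_right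
        (fun a ha => hYJ _ (Or.inr ⟨g⁻¹, Or.inr (by simpa using hg), a, ha, rfl⟩)) j hj
      simpa using this
  have hMJ : M ≤ closure m ⊔ K₀ := by
    rw [← hXM]
    exact normalClosure_le_normal fun x hx => hYJ x (Or.inl hx)
  have h1 : RN K₀ (closure m ⊔ K₀) := rn_of_fg_comm hm fun a ha b hb =>
    subset_normalClosure (s := S₀) (Or.inr ⟨a, ha, b, hb, rfl⟩)
  obtain ⟨S₁, hS₁, hS₁M, hS₁M'⟩ := (h1.mono le_rfl (hM.trans hMJ)).fg hS₀M
  refine ⟨S₁ ∪ S₀, hS₁.union hS₀, le_antisymm (normalClosure_le_normal ?_) ?_⟩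
  · exact Set.union_subset hS₁M (subset_normalClosure.trans hS₀M)
  · rw [← hS₁M']
    exact sup_le (closure_le_normalClosure.trans (normalClosure_mono Set.subset_union_left))
      (normalClosure_mono Set.subset_union_right)

/-- polycyclic groups are finitely presented -/
theorem fp [hG : Group.FG G] [Group.IsSolvable G] {K : Subgroup G} [K.Normal] (h : RN K ⊤) :
    ∃ S : Set G, S.Finite ∧ normalClosure S = K := by
  obtain ⟨n, hn⟩ := Group.IsSolvable.solvable (G := G)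
  have key : ∀ i, ∃ S : Set G, S.Finite ∧ normalClosure S = derivedSeries G i ⊔ K := by
    intro i
    induction i with
    | zero =>
      obtain ⟨Γ, hΓ, hΓf⟩ := Group.fg_iff.1 hG
      refine ⟨Γ, hΓf, ?_⟩
      rw [derivedSeries_zero, top_sup_eq, eq_top_iff, ← hΓ]
      exact closure_le_normalClosure
    | succ i ih =>
      obtain ⟨X, hX, hXM⟩ := ih
      have hle : derivedSeries G (i + 1) ≤ derivedSeries G i := by
        rw [derivedSeries_succ]; exact commutator_le_left _ _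
      refine fp_step (sup_le_sup_right hle _) ?_ (h.mono le_sup_right le_top) hX hXM
      rw [le_iff_map_eq_bot, map_commutator, Subgroup.map_sup,
        (le_iff_map_eq_bot (X := K)).1 le_sup_right, sup_bot_eq, ← map_commutator,
        ← le_iff_map_eq_bot, ← derivedSeries_succ]
      exact le_sup_left
  simpa [hn] using key n

theorem finiteIndex_iff'' {K : Subgroup G} :
    K.FiniteIndex ↔ ∃ T : Set G, T.Finite ∧ ∀ x, ∃ t ∈ T, x * t⁻¹ ∈ K := by
  rw [finiteIndex_iff']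
  constructor
  · rintro ⟨T, hT, h⟩
    refine ⟨T⁻¹, hT.inv, fun x => ?_⟩
    obtain ⟨t, ht, h⟩ := h x⁻¹
    exact ⟨t⁻¹, by simpa using ht, by simpa using K.inv_mem h⟩
  · rintro ⟨T, hT, h⟩
    refine ⟨T⁻¹, hT.inv, fun x => ?_⟩
    obtain ⟨t, ht, h⟩ := h x⁻¹
    exact ⟨t⁻¹, by simpa using ht, by simpa using K.inv_mem h⟩

/-- finite orbits on a finitely normally generated subgroup -/
theorem fg_of_finite_orbits {K M H : Subgroup G} {S : Set G} (hS : S.Finite)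
    (hK : normalClosure S = K) [hH : H.FiniteIndex] (hn : H ≤ normalizer (M : Set G))
    (h : ∀ y ∈ K, ∃ Hy : Subgroup G, Hy.FiniteIndex ∧ ∀ g ∈ Hy, ⁅g, y⁆ ∈ M) :
    ∃ T : Set G, T.Finite ∧ T ⊆ K ∧ K ≤ closure T ⊔ M := by
  have hKn : K.Normal := hK ▸ inferInstance
  obtain ⟨T₁, hT₁, h₁⟩ := finiteIndex_iff''.1 hH
  choose! Hy hHy1 hHy2 using h
  have : ∀ y ∈ K, ∃ T : Set G, T.Finite ∧ T ⊆ H ∧ ∀ x ∈ H, ∃ t ∈ T, t⁻¹ * x ∈ Hy y := by
    intro y hy
    have := hHy1 y hy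
    exact relIndex_ne_zero_iff.1 (Subgroup.FiniteIndex.index_ne_zero
      (H := (Hy y).subgroupOf H))
  choose! U hU1 hU2 hU3 using this
  let Y := Set.image2 (fun t s => t * s * t⁻¹) T₁ S
  have hY : Y.Finite := hT₁.image2 _ hS
  have hYK : Y ⊆ K := by
    rintro _ ⟨t, -, s, hs, rfl⟩
    exact hKn.conj_mem s (hK ▸ subset_normalClosure hs) t
  refine ⟨⋃ y ∈ Y, (fun u => u * y * u⁻¹) '' U y,
    hY.biUnion fun y hy => (hU1 y (hYK hy)).image _, ?_, ?_⟩
  · intro z hz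
    simp only [Set.mem_iUnion] at hz
    obtain ⟨y, hy, u, -, rfl⟩ := hz
    exact hKn.conj_mem y (hYK hy) u
  · rw [← hK, normalClosure, Subgroup.closure_le]
    intro z hz
    obtain ⟨s, hs, hz⟩ := Group.mem_conjugatesOfSet_iff.1 hz
    obtain ⟨g, rfl⟩ := isConj_iff.1 hz
    obtain ⟨t, ht, hgt⟩ := h₁ g
    have hy : t * s * t⁻¹ ∈ Y := ⟨t, ht, s, hs, rfl⟩
    set y := t * s * t⁻¹ with hydef
    obtain ⟨u, hu, hk⟩ := hU3 y (hYK hy) _ hgt
    have e : g * s * g⁻¹ = (u * ⁅u⁻¹ * (g * t⁻¹), y⁆ * u⁻¹) * (u * y * u⁻¹) := by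
      simp only [commutatorElement_def, hydef]; group
    rw [SetLike.mem_coe, e]
    refine mul_mem (mem_sup_right ?_) (mem_sup_left (subset_closure ?_))
    · exact (mem_normalizer_iff.1 (hn (hU2 y (hYK hy) hu)) _).1 (hHy2 y (hYK hy) _ hk)
    · simp only [Set.mem_iUnion]
      exact ⟨y, hy, u, hu, rfl⟩

theorem rn_of_finite_orbits [Group.FG G] [Group.IsSolvable G] {K M H : Subgroup G} [K.Normal]
    (hK : RN K ⊤) (hM : M ≤ K) (hc : ⁅K, K⁆ ≤ M) [hH : H.FiniteIndex]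
    (hn : H ≤ normalizer (M : Set G))
    (h : ∀ y ∈ K, ∃ Hy : Subgroup G, Hy.FiniteIndex ∧ ∀ g ∈ Hy, ⁅g, y⁆ ∈ M) : RN M K := by
  obtain ⟨S, hS, hSK⟩ := fp hK
  obtain ⟨T, hT, hTK, h⟩ := fg_of_finite_orbits hS hSK hn h
  exact rn_of_fg_comm' hM hc hT hTK h

end Pool.Agent.P.MP_3540e7_al
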