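import Pool.Agent.P.MP_3540e7_al.Basic

set_option autoImplicit false

namespace Pool.Agent.P.MP_3540e7_al

open Subgroup
open scoped commutatorElement

variable {G : Type*} [Group G] {Q : Type*} [Group Q]

/-- `H` contains a descending chain of `n` subgroups, each of infinite index in the previous. -/
def Long : ℕ → Subgroup G → Prop
  | 0, _ => True
  | n + 1, H => ∃ K, K ≤ H ∧ K.relIndex H = 0 ∧ Long n K

theorem Long.mono {n : ℕ} {K H : Subgroup G} (h : Long n K) (hK : K ≤ H) : Long n H := by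
  cases n with
  | zero => trivial
  | succ n =>
    obtain ⟨K', h1, h2, h3⟩ := h
    exact ⟨K', h1.trans hK, relIndex_eq_zero_of_le_right hK h2, h3⟩

theorem Long.pred : ∀ {n : ℕ} {H : Subgroup G}, Long (n + 1) H → Long n H
  | _, _, ⟨_, h1, _, h3⟩ => h3.mono h1

theorem Long.of_le {n m : ℕ} {H : Subgroup G} (h : Long n H) (hm : m ≤ n) : Long m H := by
  induction hm with
  | refl => exact h
  | step _ ih => exact ih h.pred

theorem Long.finiteIndex : ∀ {n : ℕ} {K H : Subgroup G}, K.relIndex H ≠ 0 → Long n H → Long n (K ⊓ H)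
  | 0, _, _, _, _ => trivial
  | n + 1, K, H, hi, ⟨H', h1, h2, h3⟩ => by
    refine ⟨K ⊓ H', inf_le_inf_left _ h1, ?_,
      Long.finiteIndex (fun h0 => hi (relIndex_eq_zero_of_le_right h1 h0)) h3⟩
    by_contra h4
    have h5 := relIndex_mul_relIndex (K ⊓ H') (K ⊓ H) H (inf_le_inf_left _ h1) inf_le_right
    have h6 : (K ⊓ H').relIndex H = 0 := relIndex_eq_zero_of_le_left inf_le_right h2
    rw [h6, inf_relIndex_right] at h5
    exact (mul_ne_zero h4 hi) h5

theorem not_long_of_finite {n : ℕ} {H : Subgroup G} (hH : Finite H) : ¬ Long (n + 1) H := by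
  rintro ⟨K, -, h2, -⟩
  have : Finite (H ⧸ K.subgroupOf H) := inferInstance
  exact Nat.card_pos.ne' h2

theorem relIndex_ne_zero_of_map (f : G →* Q) {K H : Subgroup G} (hK : K ≤ H)
    (h1 : (f.ker ⊓ K).relIndex (f.ker ⊓ H) ≠ 0) (h2 : (K.map f).relIndex (H.map f) ≠ 0) :
    K.relIndex H ≠ 0 := by
  rw [relIndex_ne_zero_iff] at h1 h2 ⊢
  obtain ⟨T1, hT1, hT1', h1⟩ := h1
  obtain ⟨T2, hT2, hT2', h2⟩ := h2
  have : ∀ t ∈ T2, ∃ g ∈ H, f g = t := fun t ht => hT2' ht
  choose! u hu1 hu2 using this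
  refine ⟨Set.image2 (fun t1 t2 => u t2 * t1) T1 T2, hT1.image2 _ hT2, ?_, ?_⟩
  · rintro _ ⟨t1, ht1, t2, ht2, rfl⟩
    exact H.mul_mem (hu1 t2 ht2) (hT1' ht1).2
  · intro x hx
    obtain ⟨t2, ht2, k, hk, hk2⟩ := h2 (f x) ⟨x, hx, rfl⟩
    have hz : (u t2)⁻¹ * x * k⁻¹ ∈ f.ker ⊓ H := by
      refine ⟨?_, H.mul_mem (H.mul_mem (H.inv_mem (hu1 t2 ht2)) hx) (H.inv_mem (hK hk))⟩
      simp [hu2 t2 ht2, hk2]
    obtain ⟨t1, ht1, h3⟩ := h1 _ hz
    refine ⟨_, ⟨t1, ht1, t2, ht2, rfl⟩, ?_⟩
    have := K.mul_mem h3.2 hk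
    simpa [mul_assoc] using this

theorem Long.split (f : G →* Q) : ∀ {n : ℕ} {H : Subgroup G}, Long n H →
    ∃ a b, a + b = n ∧ Long a (f.ker ⊓ H) ∧ Long b (H.map f)
  | 0, _, _ => ⟨0, 0, rfl, trivial, trivial⟩
  | n + 1, H, ⟨K, h1, h2, h3⟩ => by
    obtain ⟨a, b, hab, ha, hb⟩ := Long.split f h3
    by_cases h4 : (f.ker ⊓ K).relIndex (f.ker ⊓ H) = 0
    · exact ⟨a + 1, b, by omega, ⟨_, inf_le_inf_left _ h1, h4, ha⟩, hb.mono (map_mono h1)⟩
    by_cases h5 : (K.map f).relIndex (H.map f) = 0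
    · exact ⟨a, b + 1, by omega, ha.mono (inf_le_inf_left _ h1), ⟨_, map_mono h1, h5, hb⟩⟩
    exact absurd h2 (relIndex_ne_zero_of_map f h1 h4 h5)

theorem Long.glue (f : G →* Q) {a : ℕ} : ∀ {b : ℕ} {H : Subgroup G}, Long a (f.ker ⊓ H) →
    Long b (H.map f) → Long (a + b) H
  | 0, _, h, _ => h.mono inf_le_right
  | b + 1, H, h, ⟨K, h1, h2, h3⟩ => by
    refine ⟨K.comap f ⊓ H, inf_le_right, ?_, Long.glue f (h.mono ?_) ?_⟩
    · rw [inf_relIndex_right, relIndex_comap, h2]
    · exact le_inf inf_le_left (inf_le_inf_right _ (f.ker_le_comap K))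
    · rwa [map_comap_inf f K H h1]

theorem long_map_iff {f : G →* Q} (hf : Function.Injective f) {n : ℕ} {H : Subgroup G} :
    Long n (H.map f) ↔ Long n H := by
  constructor
  · intro h
    have := Long.glue f (a := 0) trivial h
    rwa [zero_add] at this
  · intro h
    obtain ⟨a, b, hab, ha, hb⟩ := h.split f
    rw [(MonoidHom.ker_eq_bot_iff f).2 hf, bot_inf_eq] at ha
    cases a with
    | zero => rw [← hab, zero_add]; exact hb
    | succ a => exact absurd ha (not_long_of_finite inferInstance)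

theorem Long.of_map (f : G →* Q) {n : ℕ} {H : Subgroup G} (h : Long n (H.map f)) : Long n H := by
  have := Long.glue f (a := 0) trivial h
  rwa [zero_add] at this

/-- bounded chain length -/
def Bdd (H : Subgroup G) : Prop := ∃ b, ∀ n, Long n H → n ≤ b

theorem Bdd.le {H K : Subgroup G} (h : Bdd H) (hK : K ≤ H) : Bdd K :=
  let ⟨b, hb⟩ := h; ⟨b, fun n hn => hb n (hn.mono hK)⟩

theorem Bdd.map (f : G →* Q) {H : Subgroup G} (h : Bdd H) : Bdd (H.map f) :=
  let ⟨b, hb⟩ := h; ⟨b, fun n hn => hb n (hn.of_map f)⟩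

theorem Bdd.of_map (f : G →* Q) {H : Subgroup G} (h1 : Bdd (f.ker ⊓ H)) (h2 : Bdd (H.map f)) :
    Bdd H := by
  obtain ⟨b1, h1⟩ := h1
  obtain ⟨b2, h2⟩ := h2
  refine ⟨b1 + b2, fun n hn => ?_⟩
  obtain ⟨a, b, hab, ha, hb⟩ := hn.split f
  have := h1 a ha
  have := h2 b hb
  omega

theorem bdd_bot : Bdd (⊥ : Subgroup G) :=
  ⟨0, fun n hn => by
    cases n with
    | zero => rfl
    | succ n => exact absurd hn (not_long_of_finite inferInstance)⟩

theorem bdd_zpowers (g : G) : Bdd (zpowers g) := by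
  refine ⟨1, fun n hn => ?_⟩
  by_contra h
  obtain ⟨K, h1, h2, K', h3, h4, -⟩ := hn.of_le (m := 2) (by omega)
  have hK : K = ⊥ := by
    by_contra hK
    obtain ⟨x, hx, hx1⟩ := (bot_or_exists_ne_one K).resolve_left hK
    obtain ⟨k, rfl⟩ := mem_zpowers_iff.1 (h1 hx)
    have hk : k ≠ 0 := by rintro rfl; simp at hx1
    refine (relIndex_ne_zero_iff.2 ⟨(fun i : ℤ => g ^ i) '' Set.Ico 0 |k|,
      (Set.finite_Ico _ _).image _, ?_, ?_⟩) h2
    · rintro _ ⟨i, -, rfl⟩; exact zpow_mem_zpowers g i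
    · intro y hy
      obtain ⟨m, rfl⟩ := mem_zpowers_iff.1 hy
      refine ⟨_, ⟨m % k, ⟨Int.emod_nonneg _ hk, Int.emod_lt_abs _ hk⟩, rfl⟩, ?_⟩
      have : (g ^ (m % k))⁻¹ * g ^ m = (g ^ k) ^ (m / k) := by
        rw [← zpow_neg, ← zpow_add, ← zpow_mul]
        congr 1
        have := Int.emod_add_mul_ediv m k
        linarith
      simp only [this]
      exact K.zpow_mem hx _
  subst hK
  rw [relIndex_bot_right] at h4
  exact one_ne_zero h4

theorem bdd_closure_comm {A : Type*} [CommGroup A] (S : Set A) (hS : S.Finite) :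
    Bdd (closure S) := by
  induction S, hS using Set.Finite.induction_on with
  | empty => rw [Subgroup.closure_empty]; exact bdd_bot
  | @insert a S _ hS ih =>
    refine Bdd.of_map (QuotientGroup.mk' (closure S)) (ih.le ?_) ?_
    · rw [QuotientGroup.ker_mk']; exact inf_le_left
    · refine (bdd_zpowers (QuotientGroup.mk' (closure S) a)).le ?_
      rw [map_le_iff_le_comap, Subgroup.closure_le]
      rintro x (rfl | hx)
      · exact mem_zpowers _
      · have : QuotientGroup.mk' (closure S) x = 1 :=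
          (QuotientGroup.eq_one_iff _).2 (subset_closure hx)
        simp only [coe_comap, Set.mem_preimage, this]
        exact one_mem _

theorem bdd_of_comm {H : Subgroup G} (hc : ∀ a ∈ H, ∀ b ∈ H, a * b = b * a) (h : H.FG) :
    Bdd H := by
  let : CommGroup H := { (inferInstance : Group H) with
    mul_comm := fun a b => Subtype.ext (hc a.1 a.2 b.1 b.2) }
  have : Group.FG H := (Group.fg_iff_subgroup_fg H).2 h
  obtain ⟨S, hS1, hS2⟩ := Group.fg_iff.1 this
  have := (bdd_closure_comm S hS2).map H.subtype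
  rwa [hS1, ← MonoidHom.range_eq_map, range_subtype] at this

theorem Noeth.bdd [Group.IsSolvable G] {H : Subgroup G} (h : Noeth H) : Bdd H := by
  obtain ⟨n, hn⟩ := Group.IsSolvable.solvable (G := G)
  have key : ∀ i, i ≤ n → Bdd (derivedSeries G (n - i) ⊓ H) := by
    intro i
    induction i with
    | zero => intro _; rw [Nat.sub_zero, hn, bot_inf_eq]; exact bdd_bot
    | succ i ih =>
      intro hi
      have e : n - i = (n - (i + 1)) + 1 := by omega
      have ih := ih (by omega)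
      refine Bdd.of_map (QuotientGroup.mk' (derivedSeries G (n - i))) (ih.le ?_) ?_
      · rw [QuotientGroup.ker_mk']; exact inf_le_inf_left _ inf_le_right
      · refine bdd_of_comm ?_ ((h.le inf_le_right).map _).fg
        rintro _ ⟨a, ha, rfl⟩ _ ⟨b, hb, rfl⟩
        rw [← commutatorElement_eq_one_iff_mul_comm, ← map_commutatorElement]
        refine (QuotientGroup.eq_one_iff _).2 ?_
        rw [e, derivedSeries_succ]
        exact commutator_mem_commutator ha.1 hb.1
  have := key n le_rfl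
  rwa [Nat.sub_self, derivedSeries_zero, top_inf_eq] at this

/-- The maximal length of a chain of subgroups with infinite indices (Hirsch length). -/
noncomputable def hl (H : Subgroup G) : ℕ := sSup {n | Long n H}

theorem Bdd.long {H : Subgroup G} (h : Bdd H) : Long (hl H) H :=
  Nat.sSup_mem (s := {n | Long n H}) ⟨0, trivial⟩ h

theorem Long.le_hl {H : Subgroup G} {n : ℕ} (hn : Long n H) (h : Bdd H) : n ≤ hl H :=
  le_csSup (s := {n | Long n H}) h hn

theorem hl_mono {H K : Subgroup G} (h : Bdd H) (hK : K ≤ H) : hl K ≤ hl H :=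
  ((h.le hK).long.mono hK).le_hl h

theorem hl_lt {H K : Subgroup G} (h : Bdd H) (hK : K ≤ H) (hi : K.relIndex H = 0) :
    hl K < hl H :=
  Long.le_hl (n := hl K + 1) ⟨K, hK, hi, (h.le hK).long⟩ h

theorem hl_add (f : G →* Q) {H : Subgroup G} (h : Bdd H) :
    hl H = hl (f.ker ⊓ H) + hl (H.map f) := by
  refine le_antisymm ?_ ((Long.glue f (h.le inf_le_right).long (h.map f).long).le_hl h)
  obtain ⟨a, b, hab, ha, hb⟩ := h.long.split f
  have := ha.le_hl (h.le inf_le_right)
  have := hb.le_hl (h.map f)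
  omega

theorem hl_map_injective {f : G →* Q} (hf : Function.Injective f) (H : Subgroup G) :
    hl (H.map f) = hl H := by
  simp only [hl, long_map_iff hf]

/-- additivity for a homomorphism defined on the subgroup only -/
theorem hl_add' {H : Subgroup G} (f : H →* Q) (h : Bdd H) :
    hl H = hl (f.ker.map H.subtype) + hl f.range := by
  have e : (⊤ : Subgroup H).map H.subtype = H := by
    rw [← MonoidHom.range_eq_map, range_subtype]
  have hb : Bdd (⊤ : Subgroup H) := by
    obtain ⟨b, hb⟩ := h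
    exact ⟨b, fun n hn => hb n (e ▸ (long_map_iff H.subtype_injective).2 hn)⟩
  rw [hl_map_injective H.subtype_injective, MonoidHom.range_eq_map, ← inf_top_eq f.ker,
    ← hl_add f hb, ← hl_map_injective H.subtype_injective, e]

end Pool.Agent.P.MP_3540e7_al
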