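import Pool.Agent.P.MP_3540e7_al.Top

set_option autoImplicit false

namespace Pool.Agent.P.MP_3540e7_al

open Subgroup
open scoped commutatorElement

section

variable {G : Type*} [Group G] {Q : Type*} [Group Q]
variable {L N : Subgroup G} [L.Normal] [N.Normal] {c : ℕ}

theorem hl_fixed [Group.IsSolvable G] {R : Subgroup G} [R.Normal] (hR : Noeth R) (hRL : R ≤ L)
    (x : G) : ∀ j, hl (R ⊓ CM (tau L 0 ⊓ gam L 0) x) + hl (R ⊓ (tau L 0 ⊓ gam L j)) ≤
      hl (R ⊓ CM (tau L 0 ⊓ gam L j) x) + hl (R ⊓ (tau L 0 ⊓ gam L 0))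
  | 0 => le_rfl
  | j + 1 => by
    have ih := hl_fixed hR hRL x j
    have hb : ∀ X ≤ R, Bdd X := fun X hX => hR.bdd.le hX
    let Z := tau L 0 ⊓ gam L j
    let Z' := tau L 0 ⊓ gam L (j + 1)
    change _ + hl (R ⊓ Z) ≤ hl (R ⊓ CM Z x) + _ at ih
    change _ + hl (R ⊓ Z') ≤ hl (R ⊓ CM Z' x) + _
    have hd : ∀ g ∈ R ⊓ CM Z x, ∀ g' ∈ R ⊓ CM Z x, ⁅g, ⁅x, g'⁆⁆ ∈ Z' := by
      intro g hg g' hg'
      have h1 := mem_CM.1 hg'.2
      refine ⟨comm_mem_right h1.1 g, ?_⟩
      rw [SetLike.mem_coe, gam_succ, commutator_comm]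
      exact commutator_mem_commutator (hRL hg.1) h1.2
    have h1 := hl_add' (delta Z' _ x hd) (hb _ inf_le_left)
    rw [delta_ker] at h1
    have h2 : hl (R ⊓ CM Z x ⊓ CM Z' x) ≤ hl (R ⊓ CM Z' x) :=
      hl_mono (hb _ inf_le_left) (inf_le_inf_right _ inf_le_left)
    have h3 : hl (delta Z' _ x hd).range ≤ hl ((R ⊓ Z).map (QuotientGroup.mk' Z')) :=
      hl_mono ((hb _ inf_le_left).map _)
        (delta_range Z' _ x hd fun g hg => ⟨comm_mem_right hg.1 x, mem_CM.1 hg.2⟩)
    have h4 := hl_add (QuotientGroup.mk' Z') (hb (R ⊓ Z) inf_le_left)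
    have h5 : hl (R ⊓ Z') ≤ hl ((QuotientGroup.mk' Z').ker ⊓ (R ⊓ Z)) := by
      refine hl_mono (hb _ (inf_le_right.trans inf_le_left)) ?_
      rw [QuotientGroup.ker_mk']
      exact le_inf inf_le_right (inf_le_inf_left _ (inf_le_inf_left _ (gam_succ_le L j)))
    omega

theorem Cfg.bnd [Group.IsSolvable G] (h : Cfg L N c) {x : G} (hx : Killer L N x) :
    Bnd (L.map (QuotientGroup.mk' (tau L 0)) ⊓ centralizer {QuotientGroup.mk' (tau L 0) x}) := by
  refine ⟨hl (centralizer {x}), fun X hX hXn => ?_⟩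
  let π := QuotientGroup.mk' (tau L 0)
  obtain ⟨E, hE, hEf⟩ := (fg_iff _).1 hXn.fg
  have hEX : E ⊆ X := hE ▸ subset_closure
  obtain ⟨E₀, h1, h2, rfl⟩ := exists_lift π hEf (fun e he => (hX (hEX he)).1)
  have hR := h.locally_noeth h1 h2
  have hRL : normalClosure E₀ ≤ L := normalClosure_le_normal h2
  set R := normalClosure E₀
  have hb : ∀ X ≤ R, Bdd X := fun X hX => hR.bdd.le hX
  have h3 := hl_fixed hR hRL x c
  have h4 : hl (R ⊓ CM (tau L 0 ⊓ gam L c) x) ≤ hl (centralizer {x}) := by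
    refine hl_mono (h.noeth_killer hx).bdd fun g hg => ?_
    have := (mem_CM.1 hg.2).2
    rw [h.hc] at this
    exact mem_centralizer_singleton_iff.2 (commutatorElement_eq_one_iff_mul_comm.1 this).symm
  have h5 := hl_add π (hb (R ⊓ CM (tau L 0 ⊓ gam L 0) x) inf_le_left)
  have h6 : hl (R ⊓ (tau L 0 ⊓ gam L 0)) ≤ hl (π.ker ⊓ (R ⊓ CM (tau L 0 ⊓ gam L 0) x)) := by
    refine hl_mono (hb _ (inf_le_right.trans inf_le_left)) ?_
    rw [QuotientGroup.ker_mk']
    exact le_inf (inf_le_right.trans inf_le_left) (inf_le_inf_left _ (le_CM _ x))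
  have h7 : hl X ≤ hl ((R ⊓ CM (tau L 0 ⊓ gam L 0) x).map π) := by
    refine hl_mono ((hb _ inf_le_left).map _) ?_
    rw [← hE, closure_le]
    rintro _ ⟨e, he, rfl⟩
    refine ⟨e, ⟨subset_normalClosure he, mem_CM.2 ⟨?_, comm_mem_right (B := L) (h2 he) x⟩⟩, rfl⟩
    exact mem_CM.1 (hX (hEX ⟨e, he, rfl⟩)).2
  omega

theorem centralizer_map_le (f : G →* Q) (E : Set G) :
    (centralizer E).map f ≤ centralizer (f '' E) := by
  rintro _ ⟨g, hg, rfl⟩ _ ⟨e, he, rfl⟩
  rw [← map_mul, hg e he, map_mul]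

theorem Cfg.false [Group.IsSolvable G] (h : Cfg L N c) : False := by
  have := h.fg
  let π := QuotientGroup.mk' (tau L 0)
  have hπ : Function.Surjective π := QuotientGroup.mk'_surjective _
  have hker : π.ker ≤ N := by
    rw [QuotientGroup.ker_mk']; exact (tau_le L 0).trans h.hLN
  have : (L.map π).Normal := Normal.map inferInstance π hπ
  have : (N.map π).Normal := Normal.map inferInstance π hπ
  have hc : ∀ a ∈ L.map π, ∀ b ∈ L.map π, a * b = b * a := by
    rintro _ ⟨a, ha, rfl⟩ _ ⟨b, hb, rfl⟩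
    rw [← commutatorElement_eq_one_iff_mul_comm, ← map_commutatorElement]
    exact (QuotientGroup.eq_one_iff _).2 (le_tau L 0 (commutator_mem_commutator ha hb))
  have hNN : ⁅N.map π, N.map π⁆ ≤ L.map π := by
    rw [← map_commutator]; exact map_mono h.hNN
  have key : RN (N.map π ⊓ centralizer (L.map π : Set (G ⧸ tau L 0))) (N.map π) := by
    by_cases hL : Noeth L
    · exact rn_centralizer_of_fg (hL.map π).fg hc (hNN.trans fun a ha b hb => hc b hb a ha)
    refine top_main hc ?_ hNN ?_ ?_ ?_ ?_ ?_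
    · rintro _ ⟨a, ha, rfl⟩ m hm h1
      rw [← map_pow] at h1
      obtain ⟨-, n, hn, h2⟩ : a ^ m ∈ tau L 0 := (QuotientGroup.eq_one_iff _).1 h1
      exact (QuotientGroup.eq_one_iff _).2 ⟨ha, m * n, mul_ne_zero hm hn, by rwa [pow_mul]⟩
    · have := h.hN.map π le_top
      rwa [map_top_of_surjective π hπ] at this
    · intro E hE hEA
      obtain ⟨E₀, h1, h2, rfl⟩ := exists_lift π hE hEA
      rw [← map_normalClosure _ _ hπ]
      exact (h.locally_noeth h1 h2).map π
    · intro E hE hEA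
      obtain ⟨E₀, h1, h2, rfl⟩ := exists_lift π hE hEA
      have h3 := h.safe hL h1 h2
      have h4 : ((centralizer E₀ ⊔ N).map π).FiniteIndex :=
        ⟨ne_zero_of_dvd_ne_zero h3.index_ne_zero (index_map_dvd _ hπ)⟩
      refine finiteIndex_of_le (H := (centralizer E₀ ⊔ N).map π) ?_
      rw [Subgroup.map_sup]
      exact sup_le_sup_right (centralizer_map_le π E₀) _
    · intro E hE hEA
      obtain ⟨E₀, h1, h2, rfl⟩ := exists_lift π hE hEA
      refine ((h.rn_cent hL h1 h2).map π (sup_le inf_le_right h.hLN)).mono ?_ le_rfl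
      rw [Subgroup.map_sup]
      refine sup_le (le_inf ((map_mono inf_le_left).trans (centralizer_map_le π E₀))
        (map_mono inf_le_right)) (le_inf (fun a ha b hb => hc b (hEA hb) a ha) (map_mono h.hLN))
    · intro M hM hr
      have h1 := hr.comap π (hM.trans (map_le_range π N))
      rw [comap_map_eq_self hker] at h1
      obtain ⟨x, hx, hk⟩ := h.exists_killer
        ((comap_mono hM).trans (comap_map_eq_self hker).le) h1
      exact ⟨π x, hx, h.bnd hk⟩
  have h1 := key.comap π (inf_le_left.trans (map_le_range π N))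
  rw [comap_map_eq_self hker] at h1
  refine h.descent (h1.mono (fun g hg => ⟨(comap_map_eq_self hker).le hg.1, mem_CMs.2 ?_⟩) le_rfl)
  intro l hl
  have := hg.2 (π l) ⟨l, hl, rfl⟩
  rw [← commutatorElement_eq_one_iff_mul_comm, ← map_commutatorElement] at this
  exact (QuotientGroup.eq_one_iff _).1 this

theorem fg_centralizer_sub (hC : ∀ F : Set G, F.Finite → (centralizer F).FG) {F : Set G}
    (hF : F.Finite) (F' : Set (centralizer F)) (hF' : F'.Finite) : (centralizer F').FG := by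
  have h1 := hC (F ∪ (centralizer F).subtype '' F') (hF.union (hF'.image _))
  have h2 : centralizer (F ∪ (centralizer F).subtype '' F') ≤ centralizer F :=
    centralizer_le Set.subset_union_left
  have h3 : (centralizer (F ∪ (centralizer F).subtype '' F')).subgroupOf (centralizer F)
      = centralizer F' := by
    ext g
    rw [mem_subgroupOf]
    constructor
    · intro h e he
      exact Subtype.ext (h _ (Or.inr ⟨e, he, rfl⟩))
    · rintro h _ (he | ⟨e, he, rfl⟩)
      · exact g.2 _ he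
      · exact congrArg Subtype.val (h e he)
  have := (Group.fg_iff_subgroup_fg _).2 h1
  rw [← h3, ← Group.fg_iff_subgroup_fg]
  exact Group.fg_of_surjective (f := (subgroupOfEquivOfLe h2).symm.toMonoidHom)
    (subgroupOfEquivOfLe h2).symm.surjective

end

universe u

/-- nilpotent of class `c` by abelian by polycyclic -/
def StmtA (c : ℕ) : Prop :=
  ∀ (G : Type u) [Group G] [Group.IsSolvable G] (L N : Subgroup G) [L.Normal] [N.Normal],
    (∀ F : Set G, F.Finite → (centralizer F).FG) → L ≤ N → ⁅N, N⁆ ≤ L → gam L c = ⊥ → RN N ⊤ →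
      Noeth (⊤ : Subgroup G)

/-- nilpotent of class `c` by polycyclic -/
def StmtB (c : ℕ) : Prop :=
  ∀ (G : Type u) [Group G] [Group.IsSolvable G] (L : Subgroup G) [L.Normal],
    (∀ F : Set G, F.Finite → (centralizer F).FG) → gam L c = ⊥ → RN L ⊤ → Noeth (⊤ : Subgroup G)

theorem stmtA_of_B {c : ℕ} (hB : StmtB.{u} c) : StmtA.{u} c := by
  have key : ∀ (n : ℕ) (G : Type u) [Group G] [Group.IsSolvable G] (P : Type u) [Group P]
      [Group.IsSolvable P] (f : G →* P) (L : Subgroup G) [L.Normal],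
      (∀ F : Set G, F.Finite → (centralizer F).FG) → L ≤ f.ker → ⁅f.ker, f.ker⁆ ≤ L →
      gam L c = ⊥ → Noeth f.range → hl f.range = n → Noeth (⊤ : Subgroup G) := by
    intro n
    induction n using Nat.strong_induction_on with
    | _ n ih =>
      intro G _ _ P _ _ f L _ hC hLN hNN hc hr hn
      have hN : RN f.ker ⊤ := by
        have := RN.ker_inf f (H := ⊤) (by rwa [← MonoidHom.range_eq_map])
        rwa [inf_top_eq] at this
      by_cases h1 : RN L f.ker
      · exact hB G L hC hc (h1.trans' hN hLN le_top)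
      refine (Cfg.false (L := L) (N := f.ker) ⟨hC, hLN, hNN, hc, hN, fun F hF h2 => ?_, h1⟩).elim
      by_contra h3
      apply h2
      set H := centralizer F
      have h4 : (H.map f).relIndex f.range = 0 := by
        rw [← index_comap, comap_map_eq]
        by_contra h5
        exact h3 ⟨h5⟩
      have h5 : (f.comp H.subtype).range = H.map f := by
        rw [MonoidHom.range_comp, range_subtype]
      refine noeth_of_top (ih _ (hn ▸ hl_lt hr.bdd (map_le_range f H) h4) H P (f.comp H.subtype)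
        (L.subgroupOf H) (fg_centralizer_sub hC hF) (fun g hg => hLN hg) ?_ ?_
        (h5 ▸ hr.le (map_le_range f H)) (by rw [h5]))
      · exact commutator_le.2 fun a ha b hb => hNN (commutator_mem_commutator ha hb)
      · rw [← map_eq_bot_iff_of_injective _ H.subtype_injective, gam_map, eq_bot_iff, ← hc]
        exact gam_mono (map_le_iff_le_comap.2 le_rfl) c
  intro G _ _ L N _ _ hC hLN hNN hc hN
  refine key _ G (G ⧸ N) (QuotientGroup.mk' N) L hC ?_ ?_ hc ?_ rfl
  · rwa [QuotientGroup.ker_mk']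
  · rwa [QuotientGroup.ker_mk']
  · rw [MonoidHom.range_eq_map]; exact (rn_iff_map le_top).1 hN

theorem stmtB : ∀ c, StmtB.{u} c
  | 0 => fun _ _ _ _ _ _ hc hr => by
    change _ = _ at hc
    exact hr.mono (le_of_eq hc) le_rfl
  | c + 1 => fun G _ _ L _ hC hc hr =>
    stmtA_of_B (stmtB c) G (gam L 1) L hC (gam_le L 1) le_rfl
      (eq_bot_iff.2 (hc ▸ gam_gam L c)) hr

theorem gam_eq {G : Type*} [Group G] (L : Subgroup G) : ∀ j, gam L j = L.lowerCentralSeries j
  | 0 => rfl
  | j + 1 => by rw [gam_succ, gam_eq L j, Subgroup.lowerCentralSeries_succ]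

theorem main {G : Type u} [Group G] [Group.IsSolvable G]
    (hC : ∀ H : Subgroup G, H.FG → (centralizer (H : Set G)).FG)
    (L N : Subgroup G) [L.Normal] [N.Normal] (hL : Group.IsNilpotent L) (hLN : L ≤ N)
    (hNN : ⁅N, N⁆ ≤ L) (hN : ∀ K : Subgroup (G ⧸ N), K.FG) : ∀ K : Subgroup G, K.FG := by
  obtain ⟨c, hc⟩ := (isNilpotent_iff_lowerCentralSeries L).1 hL
  have := stmtA_of_B (stmtB c) G L N (fun F hF => by
    rw [← centralizer_closure]; exact hC _ ((fg_iff _).2 ⟨F, rfl, hF⟩)) hLN hNN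
    (by rwa [gam_eq]) ((rn_iff_map le_top).2 (noeth_iff.2 fun K _ => hN K))
  exact fun K => noeth_iff.1 this K le_top

end Pool.Agent.P.MP_3540e7_al
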