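import Pool.Agent.P.MP_3540e7_al.Descent

set_option autoImplicit false

namespace Pool.Agent.P.MP_3540e7_al

open Subgroup
open scoped commutatorElement

variable {G : Type*} [Group G] {Q : Type*} [Group Q]

/-- the noetherian subgroups of `Y` have bounded length -/
def Bnd (Y : Subgroup G) : Prop := ∃ h, ∀ X ≤ Y, Noeth X → hl X ≤ h

theorem comm_eq_one_of_pow {A : Subgroup G} [hA : A.Normal] (hc : ∀ a ∈ A, ∀ b ∈ A, a * b = b * a)
    (htf : ∀ a ∈ A, ∀ m, m ≠ 0 → a ^ m = 1 → a = 1) {a s : G} (ha : a ∈ A) {r : ℕ} (hr : r ≠ 0)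
    (h : a ^ r * s = s * a ^ r) : a * s = s * a := by
  have h1 : ⁅a, s⁆ ∈ A := comm_mem_left ha s
  have h2 := comm_pow_left (hc a ha _ h1) r
  rw [commutatorElement_eq_one_iff_mul_comm.2 h] at h2
  exact commutatorElement_eq_one_iff_mul_comm.1 (htf _ h1 r hr h2.symm)

theorem exists_isolator [Group.IsSolvable G] {A Y : Subgroup G} [A.Normal]
    (hc : ∀ a ∈ A, ∀ b ∈ A, a * b = b * a) (htf : ∀ a ∈ A, ∀ m, m ≠ 0 → a ^ m = 1 → a = 1)
    (hY : Y ≤ A) (hb : Bnd Y) :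
    ∃ E : Set G, E.Finite ∧ E ⊆ Y ∧ centralizer E ≤ centralizer (Y : Set G) := by
  obtain ⟨b, hb⟩ := hb
  have hne : {n | ∃ X ≤ Y, Noeth X ∧ hl X = n}.Nonempty := ⟨_, ⊥, bot_le, RN.of_le le_rfl, rfl⟩
  have hbd : BddAbove {n | ∃ X ≤ Y, Noeth X ∧ hl X = n} :=
    ⟨b, by rintro _ ⟨X, h1, h2, rfl⟩; exact hb X h1 h2⟩
  obtain ⟨X, hX1, hX2, hX3⟩ := Nat.sSup_mem hne hbd
  obtain ⟨E, hE, hEf⟩ := (fg_iff _).1 hX2.fg
  refine ⟨E, hEf, Subgroup.subset_closure.trans (hE ▸ hX1), fun s hs a ha => ?_⟩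
  have h1 : closure (insert a E) ≤ Y :=
    (closure_le _).2 (Set.insert_subset ha (Subgroup.subset_closure.trans (hE ▸ hX1)))
  have h2 : Noeth (closure (insert a E)) :=
    noeth_of_comm (fun x hx y hy => hc x (hY (h1 hx)) y (hY (h1 hy)))
      ((fg_iff _).2 ⟨_, rfl, hEf.insert a⟩)
  have h3 : X.relIndex (closure (insert a E)) ≠ 0 := by
    intro h0
    have h4 := hl_lt h2.bdd (hE ▸ closure_mono (Set.subset_insert a E)) h0
    have h5 : hl (closure (insert a E)) ≤ _ := le_csSup hbd ⟨_, h1, h2, rfl⟩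
    omega
  obtain ⟨r, hr, -, h4⟩ := exists_pow_mem_of_relIndex_ne_zero h3
    (subset_closure (Set.mem_insert a E))
  rw [← centralizer_closure, hE] at hs
  exact comm_eq_one_of_pow hc htf (hY ha) hr.ne' (hs _ h4.1)

theorem comm_zpowers {B U : Subgroup G} [B.Normal] {x : G} (h : ∀ u ∈ U, ⁅x, u⁆ ∈ B) :
    ⁅zpowers x, U⁆ ≤ B := by
  have : zpowers x ≤ CMs B U := zpowers_le.2 (mem_CMs.2 fun u hu => by
    rw [← commutatorElement_inv]; exact inv_mem (h u hu))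
  rw [commutator_comm, commutator_le]
  exact fun u hu y hy => mem_CMs.1 (this hy) u hu

theorem supplement {A N B : Subgroup G} [A.Normal] [hN : N.Normal] [hB : B.Normal]
    (hNN : ⁅N, N⁆ ≤ A) {x : G} (hx : x ∈ N) (hf : ∀ a ∈ A, ⁅x, a⁆ ∈ B → a ∈ B) {Γ : Set G}
    (hΓ : closure Γ = ⊤) (hg : ∀ g ∈ Γ ∪ Γ⁻¹, ⁅x, g * x * g⁻¹⁆ ∈ B) : A ≤ B := by
  set D := N ⊓ CM B x
  have hDA : ∀ d ∈ D, d ∈ A → d ∈ B := fun d hd ha => hf d ha (mem_CM.1 hd.2)
  have hDD : ∀ d ∈ D, ∀ d' ∈ D, ⁅d, d'⁆ ∈ B := fun d hd d' hd' =>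
    hDA _ (commutator_le_self D (commutator_mem_commutator hd hd'))
      (hNN (commutator_mem_commutator hd.1 hd'.1))
  have h1 : ∀ g, g⁻¹ ∈ Γ ∪ Γ⁻¹ → ∀ d ∈ D, g * d * g⁻¹ ∈ D := by
    intro g hg' d hd
    refine ⟨hN.conj_mem d hd.1 g, mem_CM.2 ?_⟩
    have : ⁅x, g * d * g⁻¹⁆ = g * ⁅g⁻¹ * x * g⁻¹⁻¹, d⁆ * g⁻¹ := by
      simp only [commutatorElement_def]; group
    rw [this]
    exact hB.conj_mem _ (hDD _ ⟨hN.conj_mem x hx _, mem_CM.2 (hg _ hg')⟩ d hd) g
  have hD : D.Normal := by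
    rw [← normalizer_eq_top_iff, eq_top_iff, ← hΓ]
    refine le_normalizer_of_gens (fun g hg => h1 g (Or.inr (by simpa using hg)))
      (fun g hg j hj => ?_)
    simpa using h1 g⁻¹ (Or.inl (by simpa using hg)) j hj
  intro a ha
  have hxD : x ∈ D := ⟨hx, mem_CM.2 (by simp)⟩
  exact hf a ha (hDA _ (comm_mem_left hxD a) (comm_mem_right ha x))

/-- the upper `K`-central series of `A` -/
def TT (A K : Subgroup G) [A.Normal] [K.Normal] : ℕ → {S : Subgroup G // S.Normal}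
  | 0 => ⟨⊥, inferInstance⟩
  | m + 1 =>
    haveI := (TT A K m).2
    ⟨A ⊓ CMs (TT A K m).1 K, by have := CMs_normal (TT A K m).1 K; infer_instance⟩

/-- the upper `K`-central series of `A` -/
def T (A K : Subgroup G) [A.Normal] [K.Normal] (m : ℕ) : Subgroup G := (TT A K m).1

section

variable {A K N : Subgroup G} [A.Normal] [K.Normal]

instance T_normal (m : ℕ) : (T A K m).Normal := (TT A K m).2

theorem T_zero : T A K 0 = ⊥ := rfl

theorem mem_T_succ {m : ℕ} {a : G} : a ∈ T A K (m + 1) ↔ a ∈ A ∧ ∀ k ∈ K, ⁅k, a⁆ ∈ T A K m :=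
  and_congr Iff.rfl (mem_CMs (B := T A K m))

theorem T_le : ∀ m, T A K m ≤ A
  | 0 => bot_le
  | _ + 1 => fun _ h => (mem_T_succ.1 h).1

theorem T_mono : Monotone (T A K) := monotone_nat_of_le_succ fun m _ ha =>
  mem_T_succ.2 ⟨T_le m ha, fun k _ => comm_mem_right ha k⟩

theorem T_comm (m : ℕ) : ⁅T A K (m + 1), K⁆ ≤ T A K m := by
  rw [commutator_comm, commutator_le]
  exact fun k hk a ha => (mem_T_succ.1 ha).2 k hk

theorem le_T_succ {m : ℕ} {U : Subgroup G} (hU : U ≤ A) (h : ⁅U, K⁆ ≤ T A K m) :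
    U ≤ T A K (m + 1) := fun a ha => mem_T_succ.2 ⟨hU ha, fun k hk => by
  rw [commutator_comm] at h; exact h (commutator_mem_commutator hk ha)⟩

omit [A.Normal] in
theorem comm_bot (hc : ∀ a ∈ A, ∀ b ∈ A, a * b = b * a) {X Y : Subgroup G} (hX : X ≤ A)
    (hY : Y ≤ A) (W : Subgroup G) : ⁅X, Y⁆ ≤ W :=
  commutator_le.2 fun a ha b hb => by
    rw [commutatorElement_eq_one_iff_mul_comm.2 (hc a (hX ha) b (hY hb))]; exact one_mem W

theorem T_fpf (hc : ∀ a ∈ A, ∀ b ∈ A, a * b = b * a) (hNN : ⁅N, N⁆ ≤ A) (hK : K ≤ N) {x : G}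
    (hx : x ∈ N) (h1 : A ⊓ centralizer {x} ≤ T A K 1) : ∀ m, A ⊓ CM (T A K m) x ≤ T A K (m + 1)
  | 0 => fun a ha => h1 ⟨ha.1, by rw [← CM_bot]; exact ha.2⟩
  | m + 1 => by
    refine le_T_succ inf_le_left (le_trans (le_inf ?_ ?_) (T_fpf hc hNN hK hx h1 m))
    · exact (commutator_mono inf_le_left le_rfl).trans (commutator_le_left _ _)
    · have h2 : ⁅⁅A ⊓ CM (T A K (m + 1)) x, K⁆, zpowers x⁆ ≤ T A K m := by
        refine three_subgroups (comm_bot hc ((commutator_mono hK (zpowers_le.2 hx)).trans hNN)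
          inf_le_left _) ?_
        exact (commutator_mono (comm_zpowers fun u hu => mem_CM.1 (mem_inf.1 hu).2) le_rfl).trans (T_comm m)
      exact fun g hg => mem_CM'.2 (h2 (commutator_mem_commutator hg (mem_zpowers x)))

theorem T_shift (hc : ∀ a ∈ A, ∀ b ∈ A, a * b = b * a) (hNN : ⁅N, N⁆ ≤ A) (hK : K ≤ N)
    {D : Subgroup G} (hD : D ≤ N) {i : ℕ} (h : ⁅D, T A K i⁆ ≤ ⊥) :
    ∀ m, ⁅D, T A K (i + m)⁆ ≤ T A K m
  | 0 => h
  | m + 1 => by
    refine le_T_succ ((commutator_le_right _ _).trans (T_le _)) (three_subgroups ?_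
      (comm_bot hc ((commutator_mono hK hD).trans hNN) (T_le _) _))
    rw [commutator_comm]
    exact (commutator_mono le_rfl (T_comm (i + m))).trans (T_shift hc hNN hK hD h m)

theorem T_unip (hc : ∀ a ∈ A, ∀ b ∈ A, a * b = b * a) (hNN : ⁅N, N⁆ ≤ A) (hK : K ≤ N) :
    ∀ m, ⁅centralizer (T A K 2 : Set G), T A K (m + 1)⁆ ≤ T A K m
  | 0 => by
    rw [T_zero, le_bot_iff, commutator_eq_bot_iff_le_centralizer]
    exact centralizer_le (T_mono (by omega))
  | m + 1 => by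
    refine le_T_succ ((commutator_le_right _ _).trans (T_le _)) (three_subgroups ?_ ?_)
    · rw [commutator_comm]
      exact (commutator_mono le_rfl (T_comm (m + 1))).trans (T_unip hc hNN hK m)
    · have := T_shift hc hNN hK (D := ⁅K, centralizer (T A K 2 : Set G)⁆) (i := 2)
        ((commutator_le_left _ _).trans hK) (by
          rw [le_bot_iff, commutator_eq_bot_iff_le_centralizer]; exact commutator_le_right _ _) m
      rwa [show 2 + m = m + 1 + 1 by omega] at this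

theorem T_cent [N.Normal] (hc : ∀ a ∈ A, ∀ b ∈ A, a * b = b * a)
    (htf : ∀ a ∈ A, ∀ m, m ≠ 0 → a ^ m = 1 → a = 1) (hNN : ⁅N, N⁆ ≤ A) (hK : K ≤ N)
    (hs : ∀ a ∈ A, (centralizer (normalClosure {a} : Set G) ⊔ N).FiniteIndex) :
    ∀ j, ⁅centralizer (T A K 2 : Set G), K⁆ ≤ centralizer (T A K j : Set G)
  | 0 => fun g _ a ha => by rw [mem_bot.1 ha]; simp
  | j + 1 => by
    have ih := T_cent hc htf hNN hK hs j
    set S := centralizer (T A K 2 : Set G)
    set W := centralizer (T A K j : Set G) ⊓ K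
    have hW : ⁅W, T A K j⁆ ≤ ⊥ := by
      rw [le_bot_iff, commutator_eq_bot_iff_le_centralizer]; exact inf_le_left
    have h1 : ⁅W, T A K (j + 1)⁆ ≤ T A K 1 := T_shift hc hNN hK (inf_le_right.trans hK) hW 1
    have h2 : ⁅S, W⁆ ≤ centralizer (T A K (j + 1) : Set G) := by
      rw [← commutator_eq_bot_iff_le_centralizer, ← le_bot_iff]
      refine three_subgroups ((commutator_mono h1 le_rfl).trans ?_) ?_
      · rw [commutator_comm]; exact T_unip hc hNN hK 0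
      · rw [commutator_comm, commutator_comm (T A K (j + 1))]
        exact (commutator_mono le_rfl (T_unip hc hNN hK j)).trans hW
    rw [commutator_le]
    intro s hs' k hk a ha
    have haA : a ∈ A := T_le _ ha
    have hd : ⁅s, k⁆ ∈ W := ⟨ih (commutator_mem_commutator hs' hk), comm_mem_right hk s⟩
    obtain ⟨r, hr, -, h3⟩ := exists_pow_mem_of_index_ne_zero (hs a haA).index_ne_zero s
    obtain ⟨z, hz, n, hn, h3⟩ := (mem_sup_norm le_norm_top).1 h3
    have h4 : ⁅s ^ r, k⁆ ∈ centralizer (normalClosure {a} : Set G) := by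
      rw [← h3, commutatorElement_mul_left_eq_conj_mul]
      refine mul_mem (mul_mem (mul_mem hz ?_) (inv_mem hz)) (comm_mem_left hz k)
      intro b hb
      exact hc b (normalClosure_le_normal (Set.singleton_subset_iff.2 haA) hb) _
        (hNN (commutator_mem_commutator hn (hK hk)))
    let π := QuotientGroup.mk' (centralizer (T A K (j + 1) : Set G))
    have h5 : π ⁅s ^ r, k⁆ = π (⁅s, k⁆ ^ r) := by
      rw [map_commutatorElement, map_pow, comm_pow_left, ← map_commutatorElement, ← map_pow]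
      rw [← commutatorElement_eq_one_iff_commute, ← map_commutatorElement, ← map_commutatorElement]
      exact (QuotientGroup.eq_one_iff _).2 (h2 (commutator_mem_commutator hs' hd))
    have h6 : ⁅s, k⁆ ^ r ∈ centralizer {a} := by
      have h7 : ⁅s ^ r, k⁆⁻¹ * ⁅s, k⁆ ^ r ∈ centralizer {a} :=
        centralizer_le (Set.singleton_subset_iff.2 ha) (QuotientGroup.eq.1 h5)
      have h8 : ⁅s ^ r, k⁆ ∈ centralizer {a} :=
        centralizer_le (Set.singleton_subset_iff.2 (subset_normalClosure (Set.mem_singleton a))) h4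
      have h9 := mul_mem h8 h7
      rwa [mul_inv_cancel_left] at h9
    set d := ⁅s, k⁆
    have h7 : ⁅d, a⁆ ∈ T A K 1 := h1 (commutator_mem_commutator hd ha)
    have h8 := comm_pow_left (a := d) (b := a)
      (commutatorElement_eq_one_iff_commute.1 (mem_bot.1 ((mem_T_succ.1 h7).2 d hd.2))) r
    rw [commutatorElement_eq_one_iff_mul_comm.2 (mem_centralizer_singleton_iff.1 h6)] at h8
    exact (commutatorElement_eq_one_iff_mul_comm.1 (htf _ (T_le _ h7) r hr.ne' h8.symm)).symm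

theorem T_bnd [Group.IsSolvable G] (hc : ∀ a ∈ A, ∀ b ∈ A, a * b = b * a) {y : G} (hy : y ∈ K)
    (hb : Bnd (A ⊓ centralizer {y})) : Bnd (T A K 2) := by
  obtain ⟨b, hb⟩ := hb
  refine ⟨b + b, fun X hX hXn => ?_⟩
  let φ := cmap A hc y X (hX.trans (T_le _))
  rw [hl_add' φ hXn.bdd]
  refine add_le_add (hb _ ?_ (hXn.le (map_subtype_le _))) (hb _ ?_ ?_)
  · rintro _ ⟨a, ha, rfl⟩
    exact ⟨T_le _ (hX a.2),
      mem_centralizer_singleton_iff.2 (commutatorElement_eq_one_iff_mul_comm.1 ha).symm⟩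
  · rintro _ ⟨a, rfl⟩
    have h1 := mem_T_succ.1 ((mem_T_succ.1 (hX a.2)).2 y hy)
    exact ⟨h1.1, mem_centralizer_singleton_iff.2
      (commutatorElement_eq_one_iff_mul_comm.1 (mem_bot.1 (h1.2 y hy))).symm⟩
  · rw [MonoidHom.range_eq_map]; exact (noeth_top hXn).map φ

end

theorem top_main [hG : Group.FG G] [Group.IsSolvable G] {A N : Subgroup G} [A.Normal] [N.Normal]
    (hc : ∀ a ∈ A, ∀ b ∈ A, a * b = b * a) (htf : ∀ a ∈ A, ∀ m, m ≠ 0 → a ^ m = 1 → a = 1)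
    (hNN : ⁅N, N⁆ ≤ A) (hN : RN N ⊤)
    (hln : ∀ E : Set G, E.Finite → E ⊆ A → Noeth (normalClosure E))
    (hs : ∀ E : Set G, E.Finite → E ⊆ A → (centralizer E ⊔ N).FiniteIndex)
    (hr : ∀ E : Set G, E.Finite → E ⊆ A → RN (centralizer E ⊓ N) N)
    (hk : ∀ M ≤ N, RN M N → ∃ y ∈ M, Bnd (A ⊓ centralizer {y})) :
    RN (N ⊓ centralizer (A : Set G)) N := by
  have gen : ∀ E : Set G, E.Finite → E ⊆ A → ∃ E' : Set G, E'.Finite ∧ E' ⊆ A ∧
      centralizer E' = centralizer (normalClosure E : Set G) := by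
    intro E hE hEA
    obtain ⟨E', h1, h2⟩ := (fg_iff _).1 (hln E hE hEA).fg
    exact ⟨E', h2, Subgroup.subset_closure.trans (h1 ▸ normalClosure_le_normal hEA),
      by rw [← h1, centralizer_closure]⟩
  obtain ⟨Γ, hΓ, hΓf⟩ := Group.fg_iff.1 hG
  obtain ⟨x, hx, hxb⟩ := hk N le_rfl (RN.of_le le_rfl)
  obtain ⟨E₁, hE₁, hE₁A, hE₁c⟩ := exists_isolator hc htf inf_le_left hxb
  let E₀ := E₁ ∪ (fun g => ⁅x, g * x * g⁻¹⁆) '' (Γ ∪ Γ⁻¹)
  have hE₀ : E₀.Finite := hE₁.union ((hΓf.union hΓf.inv).image _)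
  have hE₀A : E₀ ⊆ A := by
    rintro _ (he | ⟨g, -, rfl⟩)
    · exact (hE₁A he).1
    · exact hNN (commutator_mem_commutator hx (‹N.Normal›.conj_mem x hx g))
  set K := centralizer (normalClosure E₀ : Set G) ⊓ N with hKdef
  have hKN : K ≤ N := inf_le_right
  have hK : RN K N := by
    obtain ⟨E', h1, h2, h3⟩ := gen E₀ hE₀ hE₀A
    rw [hKdef, ← h3]; exact hr E' h1 h2
  have hT1 : ∀ a ∈ A, (∀ k ∈ K, a * k = k * a) → a ∈ T A K 1 := fun a ha h =>
    mem_T_succ.2 ⟨ha, fun k hk => mem_bot.2 (commutatorElement_eq_one_iff_mul_comm.2 (h k hk).symm)⟩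
  have hfpf := T_fpf hc hNN hKN hx (fun a ha => hT1 a ha.1 fun k hk => hE₁c
    (centralizer_le (Set.subset_union_left.trans subset_normalClosure) hk.1) a ha)
  have hdir : Directed (· ≤ ·) (T A K) := T_mono.directed_le
  have hA : A ≤ ⨆ m, T A K m := by
    refine supplement hNN hx (fun a ha h => ?_) hΓ fun g hg => ?_
    · obtain ⟨m, hm⟩ := (mem_iSup_of_directed hdir).1 h
      exact mem_iSup_of_mem (m + 1) (hfpf m ⟨ha, mem_CM.2 hm⟩)
    · have h1 : ⁅x, g * x * g⁻¹⁆ ∈ E₀ := Or.inr ⟨g, hg, rfl⟩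
      exact mem_iSup_of_mem 1 (hT1 _ (hE₀A h1) fun k hk => hk.1 _ (subset_normalClosure h1))
  obtain ⟨y, hy, hyb⟩ := hk K hKN hK
  obtain ⟨E₂, hE₂, hE₂A, hE₂c⟩ := exists_isolator hc htf (T_le 2) (T_bnd hc hy hyb)
  have hcent := T_cent hc htf hNN hKN (fun a ha => by
    obtain ⟨E', h1, h2, h3⟩ := gen {a} (Set.finite_singleton a) (Set.singleton_subset_iff.2 ha)
    rw [← h3]; exact hs E' h1 h2)
  have hNA : ⁅N, N⁆ ≤ centralizer (A : Set G) := hNN.trans fun a ha b hb => hc b hb a ha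
  have h1 : RN (K ⊓ centralizer (A : Set G)) K := by
    refine rn_of_finite_orbits (H := ⊤) (hK.trans' hN hKN le_top) inf_le_left
      (le_inf (commutator_le_left _ _) ((commutator_mono hKN hKN).trans hNA)) le_norm_top
      fun k hk => ⟨CM (K ⊓ centralizer (A : Set G)) k, ?_, fun g hg => mem_CM'.1 hg⟩
    have := hs E₂ hE₂ (hE₂A.trans (T_le 2))
    refine finiteIndex_of_le (H := centralizer E₂ ⊔ N) (sup_le (fun s hs => ?_) fun n hn => ?_)
    · refine mem_CM'.2 ⟨comm_mem_right hk s, fun a ha => ?_⟩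
      obtain ⟨m, hm⟩ := (mem_iSup_of_directed hdir).1 (hA ha)
      exact hcent m (commutator_mem_commutator (hE₂c hs) hk) a hm
    · exact mem_CM'.2 ⟨comm_mem_right hk n, hNA (commutator_mem_commutator hn (hKN hk))⟩
  exact (h1.trans' hK inf_le_left hKN).mono (inf_le_inf_right _ hKN) le_rfl

end Pool.Agent.P.MP_3540e7_al
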